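import Mathlib

/-
Minimal circumscribed quadrilaterals of plane convex sets (MP_b29168_gt).

We prove that the constant `√2` in the statement (every plane convex set of unit area lies in a convex
quadrilateral of area at most `√2`) is NOT best possible, and is never attained.

Proof idea.  After an affine map the maximal-area parallelogram inscribed in the convex body `K`
is the unit square.  A Lagrange multiplier (separation) argument produces a circumscribed
quadrilateral `Q` of area `2` whose side midpoints are the vertices of the square.  Let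
`X × Y` be the bounding box of `K`; then `vol K ≥ (X + Y) / 2`.  If `vol K > √2`, `Q` is good; else
`X * Y ≤ (vol K)^2 ≤ √2 * vol K`, and the bounding box is good unless `vol K = √2 = X = Y` and
`K` is exactly the union of the square and four triangles.  In that case rotating two adjacent
sides of the bounding box about their contact points gives area `< 2 = √2 * vol K`.
Compactness (Hausdorff metric) then gives a uniform constant.
-/

namespace Pool.Agent.Results.MP_b29168_gt.CircumscribedQuadrilaterals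

open MeasureTheory Set

/-- Twice the signed area of the triangle `p q r`. -/
def cr (p q r : ℝ × ℝ) : ℝ := (q.1 - p.1) * (r.2 - p.2) - (q.2 - p.2) * (r.1 - p.1)

/-- `a, b, c, d` are the vertices, in counterclockwise order, of a (strictly) convex
quadrilateral. -/
def IsConvexQuad (a b c d : ℝ × ℝ) : Prop :=
  0 < cr a b c ∧ 0 < cr b c d ∧ 0 < cr c d a ∧ 0 < cr d a b

lemma convex_cr (p q : ℝ × ℝ) : Convex ℝ {z | 0 ≤ cr p q z} := by
  intro x hx y hy α β hα hβ hab
  simp only [mem_setOf_eq, cr] at *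
  have h1 : (α • x + β • y).1 = α * x.1 + β * y.1 := by simp
  have h2 : (α • x + β • y).2 = α * x.2 + β * y.2 := by simp
  rw [h1, h2]
  have : (q.1 - p.1) * (α * x.2 + β * y.2 - p.2) - (q.2 - p.2) * (α * x.1 + β * y.1 - p.1)
      = α * ((q.1 - p.1) * (x.2 - p.2) - (q.2 - p.2) * (x.1 - p.1))
        + β * ((q.1 - p.1) * (y.2 - p.2) - (q.2 - p.2) * (y.1 - p.1)) := by
    have hb : β = 1 - α := by linarith
    subst hb; ring
  rw [this]
  positivity

lemma mem_tri {a b c z : ℝ × ℝ} (h : 0 < cr a b c) (h1 : 0 ≤ cr a b z) (h2 : 0 ≤ cr b c z)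
    (h3 : 0 ≤ cr c a z) : z ∈ convexHull ℝ {a, b, c} := by
  have hsum : cr b c z + cr c a z + cr a b z = cr a b c := by simp only [cr]; ring
  have ha : a ∈ convexHull ℝ ({a, b, c} : Set (ℝ × ℝ)) := subset_convexHull ℝ _ (by simp)
  have hb : b ∈ convexHull ℝ ({a, b, c} : Set (ℝ × ℝ)) := subset_convexHull ℝ _ (by simp)
  have hc : c ∈ convexHull ℝ ({a, b, c} : Set (ℝ × ℝ)) := subset_convexHull ℝ _ (by simp)
  have hconv := convex_convexHull ℝ ({a, b, c} : Set (ℝ × ℝ))
  have key := hconv.sum_mem (t := Finset.univ) (w := ![cr b c z / cr a b c, cr c a z / cr a b c,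
    cr a b z / cr a b c]) (z := ![a, b, c])
    (by
      intro i _
      fin_cases i <;> simp <;> positivity)
    (by
      simp [Fin.sum_univ_three]
      field_simp
      linarith)
    (by
      intro i _
      fin_cases i <;> simp [ha, hb, hc])
  have e : ∑ i, (![cr b c z / cr a b c, cr c a z / cr a b c, cr a b z / cr a b c] : Fin 3 → ℝ) i
      • (![a, b, c] : Fin 3 → ℝ × ℝ) i = z := by
    simp only [Fin.sum_univ_three]
    simp only [Matrix.cons_val_zero, Matrix.cons_val_one, Matrix.cons_val_two, Matrix.head_cons,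
      Matrix.tail_cons, Matrix.cons_val]
    ext
    · simp only [Prod.fst_add, Prod.smul_fst, smul_eq_mul]
      field_simp
      simp only [cr]; ring
    · simp only [Prod.snd_add, Prod.smul_snd, smul_eq_mul]
      field_simp
      simp only [cr]; ring
  rw [e] at key
  exact key

lemma quad_cover {a b c d z : ℝ × ℝ} (h : IsConvexQuad a b c d) (h1 : 0 ≤ cr a b z)
    (h2 : 0 ≤ cr b c z) (h3 : 0 ≤ cr c d z) (h4 : 0 ≤ cr d a z) :
    z ∈ convexHull ℝ {a, b, c} ∪ convexHull ℝ {a, c, d} := by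
  obtain ⟨q1, q2, q3, q4⟩ := h
  rcases le_total 0 (cr c a z) with hz | hz
  · left; exact mem_tri q1 h1 h2 hz
  · right
    refine mem_tri (a := a) (b := c) (c := d) ?_ ?_ h3 h4
    · have : cr a c d = cr c d a := by simp only [cr]; ring
      rw [this]; exact q3
    · have : cr a c z = - cr c a z := by simp only [cr]; ring
      rw [this]; linarith

lemma quad_mem {a b c d z : ℝ × ℝ} (h : IsConvexQuad a b c d) (h1 : 0 ≤ cr a b z)
    (h2 : 0 ≤ cr b c z) (h3 : 0 ≤ cr c d z) (h4 : 0 ≤ cr d a z) :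
    z ∈ convexHull ℝ {a, b, c, d} := by
  rcases quad_cover h h1 h2 h3 h4 with hz | hz
  · refine convexHull_mono ?_ hz
    intro x; simp; tauto
  · refine convexHull_mono ?_ hz
    intro x; simp; tauto

lemma quad_hull_subset {a b c d : ℝ × ℝ} (h : IsConvexQuad a b c d) :
    convexHull ℝ {a, b, c, d} ⊆ convexHull ℝ {a, b, c} ∪ convexHull ℝ {a, c, d} := by
  have hh := h
  obtain ⟨q1, q2, q3, q4⟩ := hh
  have hsub : convexHull ℝ ({a, b, c, d} : Set (ℝ × ℝ)) ⊆
      {z | 0 ≤ cr a b z} ∩ {z | 0 ≤ cr b c z} ∩ {z | 0 ≤ cr c d z} ∩ {z | 0 ≤ cr d a z} := by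
    apply convexHull_min
    · have e1 : cr a b a = 0 := by simp only [cr]; ring
      have e2 : cr a b b = 0 := by simp only [cr]; ring
      have e3 : cr a b d = cr d a b := by simp only [cr]; ring
      have e4 : cr b c a = cr a b c := by simp only [cr]; ring
      have e5 : cr b c b = 0 := by simp only [cr]; ring
      have e6 : cr b c c = 0 := by simp only [cr]; ring
      have e7 : cr c d b = cr b c d := by simp only [cr]; ring
      have e8 : cr c d c = 0 := by simp only [cr]; ring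
      have e9 : cr c d d = 0 := by simp only [cr]; ring
      have e10 : cr d a a = 0 := by simp only [cr]; ring
      have e11 : cr d a c = cr c d a := by simp only [cr]; ring
      have e12 : cr d a d = 0 := by simp only [cr]; ring
      intro x hx
      simp only [mem_insert_iff, mem_singleton_iff] at hx
      simp only [mem_inter_iff, mem_setOf_eq]
      rcases hx with rfl | rfl | rfl | rfl
      · rw [e1, e4, e10]; exact ⟨⟨⟨le_refl _, q1.le⟩, q3.le⟩, le_refl _⟩
      · rw [e2, e5, e7]; exact ⟨⟨⟨le_refl _, le_refl _⟩, q2.le⟩, q4.le⟩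
      · rw [e6, e8, e11]; exact ⟨⟨⟨q1.le, le_refl _⟩, le_refl _⟩, q3.le⟩
      · rw [e3, e9, e12]; exact ⟨⟨⟨q4.le, q2.le⟩, le_refl _⟩, le_refl _⟩
    · exact (((convex_cr a b).inter (convex_cr b c)).inter (convex_cr c d)).inter (convex_cr d a)
  intro z hz
  obtain ⟨⟨⟨h1, h2⟩, h3⟩, h4⟩ := hsub hz
  exact quad_cover h h1 h2 h3 h4

/-- explicit affine maps -/
def aff (α β γ δ s t : ℝ) (z : ℝ × ℝ) : ℝ × ℝ := (α * z.1 + β * z.2 + s, γ * z.1 + δ * z.2 + t)

lemma volume_aff (α β γ δ s t : ℝ) (K : Set (ℝ × ℝ)) :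
    volume (aff α β γ δ s t '' K) = ENNReal.ofReal |α * δ - β * γ| * volume K := by
  set L : ℝ × ℝ →ₗ[ℝ] ℝ × ℝ := Matrix.toLin (Module.Basis.finTwoProd ℝ) (Module.Basis.finTwoProd ℝ)
    !![α, β; γ, δ] with hL
  have hLd : LinearMap.det L = α * δ - β * γ := by
    rw [hL, LinearMap.det_toLin, Matrix.det_fin_two_of]
  have e : aff α β γ δ s t '' K = (fun z => z + (s, t)) '' (L '' K) := by
    rw [image_image]
    apply image_congr
    intro z _
    simp only [aff, hL, Matrix.toLin_finTwoProd_apply, Prod.mk_add_mk]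
  rw [e]
  have e2 : (fun z : ℝ × ℝ => z + (s, t)) '' (L '' K) = (fun z => z + (-(s, t) : ℝ × ℝ)) ⁻¹' (L '' K) := by
    rw [image_add_right]
  rw [e2, measure_preimage_add_right, Measure.addHaar_image_linearMap, hLd]


lemma aff_coe (α β γ δ s t : ℝ) :
    aff α β γ δ s t = ⇑((Matrix.toLin (Module.Basis.finTwoProd ℝ) (Module.Basis.finTwoProd ℝ)
      !![α, β; γ, δ]).toAffineMap + AffineMap.const ℝ (ℝ × ℝ) ((s, t) : ℝ × ℝ)) := by
  funext z
  simp [aff, Matrix.toLin_finTwoProd_apply]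

lemma aff_hull (α β γ δ s t : ℝ) (S : Set (ℝ × ℝ)) :
    aff α β γ δ s t '' convexHull ℝ S = convexHull ℝ (aff α β γ δ s t '' S) := by
  rw [aff_coe, AffineMap.image_convexHull]

lemma cr_aff (α β γ δ s t : ℝ) (p q r : ℝ × ℝ) :
    cr (aff α β γ δ s t p) (aff α β γ δ s t q) (aff α β γ δ s t r)
      = (α * δ - β * γ) * cr p q r := by
  simp only [cr, aff]; ring

lemma aff_continuous (α β γ δ s t : ℝ) : Continuous (aff α β γ δ s t) := by
  unfold aff; fun_prop

lemma vol_std : volume (convexHull ℝ ({(0, 0), (1, 0), (0, 1)} : Set (ℝ × ℝ)))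
    = ENNReal.ofReal (1 / 2) := by
  have hset : convexHull ℝ ({(0, 0), (1, 0), (0, 1)} : Set (ℝ × ℝ))
      = {p : ℝ × ℝ | 0 ≤ p.1 ∧ 0 ≤ p.2 ∧ p.1 + p.2 ≤ 1} := by
    apply Subset.antisymm
    · apply convexHull_min
      · intro x hx
        simp only [mem_insert_iff, mem_singleton_iff] at hx
        rcases hx with rfl | rfl | rfl <;> norm_num
      · intro x hx y hy α β hα hβ hab
        simp only [mem_setOf_eq, Prod.fst_add, Prod.smul_fst, Prod.snd_add, Prod.smul_snd,
          smul_eq_mul] at *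
        obtain ⟨hx1, hx2, hx3⟩ := hx
        obtain ⟨hy1, hy2, hy3⟩ := hy
        refine ⟨by positivity, by positivity, ?_⟩
        nlinarith
    · rintro ⟨x, y⟩ ⟨h1, h2, h3⟩
      simp only at h1 h2 h3
      apply mem_tri
      · norm_num [cr]
      · simp [cr]; linarith
      · simp [cr]; linarith
      · simp [cr]; linarith
  rw [hset]
  have hmeas : MeasurableSet {p : ℝ × ℝ | 0 ≤ p.1 ∧ 0 ≤ p.2 ∧ p.1 + p.2 ≤ 1} := by
    apply IsClosed.measurableSet
    apply IsClosed.inter (isClosed_le continuous_const continuous_fst)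
    apply IsClosed.inter (isClosed_le continuous_const continuous_snd)
    exact isClosed_le (continuous_fst.add continuous_snd) continuous_const
  rw [Measure.volume_eq_prod, Measure.prod_apply hmeas]
  have hsec : ∀ x : ℝ, volume (Prod.mk x ⁻¹' {p : ℝ × ℝ | 0 ≤ p.1 ∧ 0 ≤ p.2 ∧ p.1 + p.2 ≤ 1})
      = (Icc (0:ℝ) 1).indicator (fun x => ENNReal.ofReal (1 - x)) x := by
    intro x
    by_cases hx : x ∈ Icc (0:ℝ) 1
    · rw [indicator_of_mem hx]
      have : Prod.mk x ⁻¹' {p : ℝ × ℝ | 0 ≤ p.1 ∧ 0 ≤ p.2 ∧ p.1 + p.2 ≤ 1} = Icc 0 (1 - x) := by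
        ext y
        simp only [mem_preimage, mem_setOf_eq, mem_Icc]
        constructor
        · rintro ⟨_, h2, h3⟩; exact ⟨h2, by linarith⟩
        · rintro ⟨h2, h3⟩; exact ⟨hx.1, h2, by linarith⟩
      rw [this, Real.volume_Icc]; simp
    · rw [indicator_of_notMem hx]
      have : Prod.mk x ⁻¹' {p : ℝ × ℝ | 0 ≤ p.1 ∧ 0 ≤ p.2 ∧ p.1 + p.2 ≤ 1} = ∅ := by
        ext y
        simp only [mem_preimage, mem_setOf_eq, mem_empty_iff_false, iff_false]
        rintro ⟨h1, h2, h3⟩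
        exact hx ⟨h1, by linarith⟩
      rw [this]; simp
  simp_rw [hsec]
  rw [lintegral_indicator measurableSet_Icc]
  rw [← ofReal_integral_eq_lintegral_ofReal]
  · congr 1
    rw [integral_Icc_eq_integral_Ioc, ← intervalIntegral.integral_of_le (by norm_num)]
    rw [intervalIntegral.integral_sub (by simp) (by simp)]
    simp; norm_num
  · exact (Continuous.integrableOn_Icc (by fun_prop))
  · filter_upwards [ae_restrict_mem measurableSet_Icc] with x hx
    simp only [Pi.zero_apply]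
    linarith [hx.2]

lemma vol_tri (a b c : ℝ × ℝ) :
    volume (convexHull ℝ ({a, b, c} : Set (ℝ × ℝ))) = ENNReal.ofReal (|cr a b c| / 2) := by
  have e : ({a, b, c} : Set (ℝ × ℝ)) = aff (b.1 - a.1) (c.1 - a.1) (b.2 - a.2) (c.2 - a.2) a.1 a.2
      '' {(0, 0), (1, 0), (0, 1)} := by
    simp only [image_insert_eq, image_singleton, aff]
    congr 1
    · simp
    · congr 1
      · simp
      · simp
  rw [e, ← aff_hull, volume_aff, vol_std, ← ENNReal.ofReal_mul (abs_nonneg _)]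
  congr 1
  have : (b.1 - a.1) * (c.2 - a.2) - (c.1 - a.1) * (b.2 - a.2) = cr a b c := by
    simp only [cr]; ring
  rw [this]; ring

lemma vol_quad_le {a b c d : ℝ × ℝ} (h : IsConvexQuad a b c d) :
    volume (convexHull ℝ ({a, b, c, d} : Set (ℝ × ℝ)))
      ≤ ENNReal.ofReal ((cr a b c + cr a c d) / 2) := by
  have h1 := measure_mono (μ := (volume : Measure (ℝ × ℝ))) (quad_hull_subset h)
  refine h1.trans ((measure_union_le _ _).trans ?_)
  rw [vol_tri, vol_tri, ← ENNReal.ofReal_add (by positivity) (by positivity)]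
  have e1 : |cr a b c| = cr a b c := abs_of_pos h.1
  have e2 : |cr a c d| = cr a c d := abs_of_pos (by
    have : cr a c d = cr c d a := by simp only [cr]; ring
    rw [this]; exact h.2.2.1)
  rw [e1, e2]
  apply ENNReal.ofReal_le_ofReal; linarith

/-- `K` lies in a strictly convex quadrilateral of area `< A`. -/
def Good (K : Set (ℝ × ℝ)) (A : ℝ) : Prop :=
  ∃ a b c d, IsConvexQuad a b c d ∧ K ⊆ convexHull ℝ {a, b, c, d} ∧
    (cr a b c + cr a c d) / 2 < A

lemma Good.mono {K K' : Set (ℝ × ℝ)} {A A' : ℝ} (h : Good K A) (hK : K' ⊆ K) (hA : A ≤ A') :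
    Good K' A' := by
  obtain ⟨a, b, c, d, h1, h2, h3⟩ := h
  exact ⟨a, b, c, d, h1, hK.trans h2, by linarith⟩

lemma Good.aff {K : Set (ℝ × ℝ)} {A : ℝ} (h : Good K A) (α β γ δ s t : ℝ)
    (hd : α * δ - β * γ ≠ 0) : Good (aff α β γ δ s t '' K) (|α * δ - β * γ| * A) := by
  obtain ⟨a, b, c, d, ⟨q1, q2, q3, q4⟩, h2, h3⟩ := h
  have himg : CircumscribedQuadrilaterals.aff α β γ δ s t '' K ⊆
      convexHull ℝ (CircumscribedQuadrilaterals.aff α β γ δ s t '' {a, b, c, d}) := by
    rw [← aff_hull]; exact image_mono h2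
  rcases lt_or_gt_of_ne hd with hneg | hpos
  · refine ⟨CircumscribedQuadrilaterals.aff α β γ δ s t a, CircumscribedQuadrilaterals.aff α β γ δ s t d,
      CircumscribedQuadrilaterals.aff α β γ δ s t c, CircumscribedQuadrilaterals.aff α β γ δ s t b,
      ⟨?_, ?_, ?_, ?_⟩, ?_, ?_⟩
    · rw [cr_aff]
      have : cr a d c = - cr c d a := by simp only [cr]; ring
      rw [this]; nlinarith
    · rw [cr_aff]
      have : cr d c b = - cr b c d := by simp only [cr]; ring
      rw [this]; nlinarith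
    · rw [cr_aff]
      have : cr c b a = - cr a b c := by simp only [cr]; ring
      rw [this]; nlinarith
    · rw [cr_aff]
      have : cr b a d = - cr d a b := by simp only [cr]; ring
      rw [this]; nlinarith
    · refine himg.trans (convexHull_mono ?_)
      intro x; simp only [image_insert_eq, image_singleton, mem_insert_iff, mem_singleton_iff]; tauto
    · rw [cr_aff, cr_aff, abs_of_neg hneg]
      have e1 : cr a d c = - cr a c d := by simp only [cr]; ring
      have e2 : cr a c b = - cr a b c := by simp only [cr]; ring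
      rw [e1, e2]
      nlinarith
  · refine ⟨CircumscribedQuadrilaterals.aff α β γ δ s t a, CircumscribedQuadrilaterals.aff α β γ δ s t b,
      CircumscribedQuadrilaterals.aff α β γ δ s t c, CircumscribedQuadrilaterals.aff α β γ δ s t d,
      ⟨?_, ?_, ?_, ?_⟩, ?_, ?_⟩
    · rw [cr_aff]; positivity
    · rw [cr_aff]; positivity
    · rw [cr_aff]; positivity
    · rw [cr_aff]; positivity
    · refine himg.trans (convexHull_mono ?_)
      intro x; simp only [image_insert_eq, image_singleton, mem_insert_iff, mem_singleton_iff]; tauto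
    · rw [cr_aff, cr_aff, abs_of_pos hpos]
      nlinarith


lemma linearize {K : Set (ℝ × ℝ)} (hK : Convex ℝ K) (h00 : ((0, 0) : ℝ × ℝ) ∈ K)
    (h10 : ((1, 0) : ℝ × ℝ) ∈ K) (h01 : ((0, 1) : ℝ × ℝ) ∈ K) (h11 : ((1, 1) : ℝ × ℝ) ∈ K)
    (hmax : ∀ z1 ∈ K, ∀ z2 ∈ K, ∀ z3 ∈ K, ∀ z4 ∈ K, z1 + z3 = z2 + z4 → cr z1 z2 z4 ≤ 1)
    {z1 z2 z3 z4 : ℝ × ℝ} (m1 : z1 ∈ K) (m2 : z2 ∈ K) (m3 : z3 ∈ K) (m4 : z4 ∈ K)
    (hz : z1 + z3 = z2 + z4) :
    (z2.1 - z1.1) + (z4.2 - z1.2) ≤ 2 := by
  by_contra hcon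
  push Not at hcon
  set η := (z2.1 - z1.1) + (z4.2 - z1.2) - 2 with hη
  have hηpos : 0 < η := by linarith
  have hx : z1.1 + z3.1 = z2.1 + z4.1 := by
    have := congrArg Prod.fst hz; simpa using this
  have hy : z1.2 + z3.2 = z2.2 + z4.2 := by
    have := congrArg Prod.snd hz; simpa using this
  have key : ∀ ε : ℝ, 0 ≤ ε → ε ≤ 1 →
      (1 - ε) ^ 2 + ε * (1 - ε) * (2 + η) + ε ^ 2 * cr z1 z2 z4 ≤ 1 := by
    intro ε h0 h1
    have hc : ∀ a ∈ K, ∀ b ∈ K, (1 - ε) • a + ε • b ∈ K := fun a ha b hb =>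
      hK ha hb (by linarith) h0 (by ring)
    have := hmax _ (hc _ h00 _ m1) _ (hc _ h10 _ m2) _ (hc _ h11 _ m3) _ (hc _ h01 _ m4) (by
      ext
      · simp; nlinarith
      · simp; nlinarith)
    refine le_trans (le_of_eq ?_) this
    simp only [cr, Prod.fst_add, Prod.snd_add, Prod.smul_fst, Prod.smul_snd, smul_eq_mul, hη]
    ring
  set D := cr z1 z2 z4
  rcases le_or_gt (1 + η - D) 0 with hc | hc
  · have := key (1/2) (by norm_num) (by norm_num)
    nlinarith
  · have hpos : 0 < 2 * (1 + η - D + η) := by linarith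
    set ε := η / (2 * (1 + η - D + η)) with hε
    have hε0 : 0 < ε := by positivity
    have hε1 : ε ≤ 1 := by rw [hε, div_le_one hpos]; linarith
    have := key ε hε0.le hε1
    have h2 : ε * (2 * (1 + η - D + η)) = η := by rw [hε]; field_simp
    have h3 : ε * η ≤ ε * (1 + η - D) := by
      have : ε * (η - ε * (1 + η - D)) ≤ 0 := by nlinarith
      have : η - ε * (1 + η - D) ≤ 0 := by
        by_contra hh; push Not at hh; nlinarith
      nlinarith
    have h4 : η ≤ ε * (1 + η - D) := by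
      have : ε * (η - ε * (1 + η - D)) ≤ 0 := by nlinarith
      by_contra hh; push Not at hh; nlinarith
    nlinarith

def TT : ((ℝ × ℝ) × (ℝ × ℝ) × (ℝ × ℝ) × (ℝ × ℝ)) →ₗ[ℝ] (ℝ × ℝ × ℝ) where
  toFun z := (z.1.1 + z.2.2.1.1 - z.2.1.1 - z.2.2.2.1, z.1.2 + z.2.2.1.2 - z.2.1.2 - z.2.2.2.2,
    (z.2.2.1.1 - z.1.1) + (z.2.2.1.2 - z.1.2) + (z.2.2.2.2 - z.2.1.2) - (z.2.2.2.1 - z.2.1.1))
  map_add' x y := by ext <;> simp <;> ring
  map_smul' c x := by ext <;> simp <;> ring

lemma TT_surj : Function.Surjective TT := by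
  rintro ⟨w1, w2, l⟩
  refine ⟨((w1, (w2 - l - w1) / 2), (0, (-l - w1 - w2) / 2), (0, 0), (0, 0)), ?_⟩
  simp only [TT, LinearMap.coe_mk, AddHom.coe_mk]
  ext
  · simp
  · simp; ring
  · simp; ring

lemma lagrange {K : Set (ℝ × ℝ)} (hK : Convex ℝ K) (h00 : ((0, 0) : ℝ × ℝ) ∈ K)
    (h10 : ((1, 0) : ℝ × ℝ) ∈ K) (h01 : ((0, 1) : ℝ × ℝ) ∈ K) (h11 : ((1, 1) : ℝ × ℝ) ∈ K)
    (hint : (interior K).Nonempty)
    (hmax : ∀ z1 ∈ K, ∀ z2 ∈ K, ∀ z3 ∈ K, ∀ z4 ∈ K, z1 + z3 = z2 + z4 → cr z1 z2 z4 ≤ 1) :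
    ∃ s1 s2 : ℝ, ∀ z1 ∈ K, ∀ z2 ∈ K, ∀ z3 ∈ K, ∀ z4 ∈ K,
      (z3.1 - z1.1) + (z3.2 - z1.2) + (z4.2 - z2.2) - (z4.1 - z2.1)
        + s1 * (z1.1 + z3.1 - z2.1 - z4.1) + s2 * (z1.2 + z3.2 - z2.2 - z4.2) ≤ 4 := by
  set S : Set (ℝ × ℝ × ℝ) := TT '' (K ×ˢ K ×ˢ K ×ˢ K) with hS
  have hSconv : Convex ℝ S := (hK.prod (hK.prod (hK.prod hK))).linear_image TT
  have hSint : (interior S).Nonempty := by
    have hopen : IsOpen (TT '' (interior K ×ˢ interior K ×ˢ interior K ×ˢ interior K)) := by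
      apply LinearMap.isOpenMap_of_finiteDimensional TT TT_surj
      exact isOpen_interior.prod (isOpen_interior.prod (isOpen_interior.prod isOpen_interior))
    have hsub : TT '' (interior K ×ˢ interior K ×ˢ interior K ×ˢ interior K) ⊆ S := by
      apply image_mono
      exact prod_mono interior_subset (prod_mono interior_subset
        (prod_mono interior_subset interior_subset))
    obtain ⟨k, hk⟩ := hint
    exact ⟨TT (k, k, k, k), interior_maximal hsub hopen ⟨_, ⟨hk, hk, hk, hk⟩, rfl⟩⟩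
  have hnot : ((0, 0, 4) : ℝ × ℝ × ℝ) ∉ interior S := by
    intro hin
    have hnh : S ∈ nhds ((0, 0, 4) : ℝ × ℝ × ℝ) := mem_interior_iff_mem_nhds.mp hin
    have hcont : Filter.Tendsto (fun t : ℝ => ((0, 0, 4 + t) : ℝ × ℝ × ℝ)) (nhds 0)
        (nhds ((0, 0, 4) : ℝ × ℝ × ℝ)) := by
      have : Continuous (fun t : ℝ => ((0, 0, 4 + t) : ℝ × ℝ × ℝ)) := by fun_prop
      have h2 := this.tendsto 0
      simpa using h2
    have hev := hcont hnh
    rw [Filter.mem_map] at hev
    obtain ⟨ε, hε, hball⟩ := Metric.mem_nhds_iff.mp hev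
    have hmem : ε / 2 ∈ Metric.ball (0:ℝ) ε := by
      rw [Metric.mem_ball, Real.dist_eq, sub_zero, abs_of_pos (by linarith)]; linarith
    obtain ⟨⟨z1, z2, z3, z4⟩, ⟨m1, m2, m3, m4⟩, hz⟩ := hball hmem
    simp only [TT, LinearMap.coe_mk, AddHom.coe_mk, Prod.mk.injEq] at hz
    obtain ⟨e1, e2, e3⟩ := hz
    have := linearize hK h00 h10 h01 h11 hmax m1 m2 m3 m4 (by
      ext
      · simp; linarith
      · simp; linarith)
    linarith
  obtain ⟨f, hf⟩ := geometric_hahn_banach_open_point hSconv.interior isOpen_interior hnot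
  have hle : ∀ w ∈ S, f w ≤ f (0, 0, 4) := by
    intro w hw
    have h1 : w ∈ closure (interior S) := by
      rw [hSconv.closure_interior_eq_closure_of_nonempty_interior hSint]
      exact subset_closure hw
    have h2 : closure (interior S) ⊆ {w | f w ≤ f (0, 0, 4)} := by
      apply closure_minimal
      · intro a ha; exact (hf a ha).le
      · exact isClosed_le f.continuous continuous_const
    exact h2 h1
  have hdec : ∀ w1 w2 l : ℝ, f (w1, w2, l) = w1 * f (1, 0, 0) + w2 * f (0, 1, 0) + l * f (0, 0, 1) := by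
    intro w1 w2 l
    have : ((w1, w2, l) : ℝ × ℝ × ℝ) = w1 • ((1, 0, 0) : ℝ × ℝ × ℝ) + w2 • ((0, 1, 0) : ℝ × ℝ × ℝ)
        + l • ((0, 0, 1) : ℝ × ℝ × ℝ) := by
      ext <;> simp
    rw [this, map_add, map_add, map_smul, map_smul, map_smul]
    simp
  set σ1 := f (1, 0, 0) with hσ1
  set σ2 := f (0, 1, 0) with hσ2
  set μ := f (0, 0, 1) with hμ
  have hall : ∀ z1 ∈ K, ∀ z2 ∈ K, ∀ z3 ∈ K, ∀ z4 ∈ K,
      (z1.1 + z3.1 - z2.1 - z4.1) * σ1 + (z1.2 + z3.2 - z2.2 - z4.2) * σ2
      + ((z3.1 - z1.1) + (z3.2 - z1.2) + (z4.2 - z2.2) - (z4.1 - z2.1)) * μ ≤ 4 * μ := by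
    intro z1 m1 z2 m2 z3 m3 z4 m4
    have := hle (TT (z1, z2, z3, z4)) ⟨_, ⟨m1, m2, m3, m4⟩, rfl⟩
    simp only [TT, LinearMap.coe_mk, AddHom.coe_mk] at this
    rw [hdec, hdec] at this
    linarith
  have hμ0 : 0 ≤ μ := by
    have := hall _ h00 _ h00 _ h00 _ h00
    simp at this; linarith
  have hμpos : 0 < μ := by
    rcases hμ0.lt_or_eq with h | h
    · exact h
    · exfalso
      have a1 := hall _ h10 _ h00 _ h00 _ h00
      have a2 := hall _ h00 _ h10 _ h00 _ h00
      have a3 := hall _ h01 _ h00 _ h00 _ h00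
      have a4 := hall _ h00 _ h01 _ h00 _ h00
      rw [← h] at a1 a2 a3 a4
      simp at a1 a2 a3 a4
      obtain ⟨k, hk⟩ := hSint
      have hk2 := hf k hk
      obtain ⟨k1, k2, k3⟩ := k
      rw [hdec, hdec] at hk2
      have s1 : σ1 = 0 := by linarith
      have s2 : σ2 = 0 := by linarith
      rw [s1, s2, ← h] at hk2
      simp at hk2
  refine ⟨σ1 / μ, σ2 / μ, ?_⟩
  intro z1 m1 z2 m2 z3 m3 z4 m4
  have := hall z1 m1 z2 m2 z3 m3 z4 m4
  have h2 : ((z3.1 - z1.1) + (z3.2 - z1.2) + (z4.2 - z2.2) - (z4.1 - z2.1)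
        + σ1 / μ * (z1.1 + z3.1 - z2.1 - z4.1) + σ2 / μ * (z1.2 + z3.2 - z2.2 - z4.2)) * μ
      ≤ 4 * μ := by
    refine le_trans (le_of_eq ?_) this
    field_simp
    ring
  exact le_of_mul_le_mul_right h2 hμpos

/-- existence of the balanced circumscribed quadrilateral, in normalised coordinates -/
lemma balanced {K : Set (ℝ × ℝ)} (hK : Convex ℝ K) (h00 : ((0, 0) : ℝ × ℝ) ∈ K)
    (h10 : ((1, 0) : ℝ × ℝ) ∈ K) (h01 : ((0, 1) : ℝ × ℝ) ∈ K) (h11 : ((1, 1) : ℝ × ℝ) ∈ K)
    (hint : (interior K).Nonempty)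
    (hmax : ∀ z1 ∈ K, ∀ z2 ∈ K, ∀ z3 ∈ K, ∀ z4 ∈ K, z1 + z3 = z2 + z4 → cr z1 z2 z4 ≤ 1) :
    ∃ a b : ℝ, 0 ≤ a ∧ a ≤ 1 ∧ 0 ≤ b ∧ b ≤ 1 ∧ ∀ z ∈ K,
      -b * z.1 + a * (z.2 - 1) ≤ 0 ∧ b * (z.1 - 1) + (1 - a) * (z.2 - 1) ≤ 0 ∧
      (1 - b) * (z.1 - 1) - (1 - a) * z.2 ≤ 0 ∧ -(1 - b) * z.1 - a * z.2 ≤ 0 := by
  obtain ⟨s1, s2, hs⟩ := lagrange hK h00 h10 h01 h11 hint hmax
  have c1 := hs _ h10 _ h10 _ h11 _ h01
  have c2 := hs _ h00 _ h10 _ h11 _ h11
  have c3 := hs _ h01 _ h10 _ h11 _ h01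
  have c4 := hs _ h00 _ h10 _ h11 _ h00
  have c5 := hs _ h00 _ h11 _ h11 _ h01
  have c6 := hs _ h00 _ h00 _ h11 _ h01
  have c7 := hs _ h00 _ h10 _ h10 _ h01
  have c8 := hs _ h00 _ h10 _ h01 _ h01
  simp at c1 c2 c3 c4 c5 c6 c7 c8
  refine ⟨(1 - s2) / 2, (1 + s1) / 2, by linarith, by linarith, by linarith, by linarith, ?_⟩
  intro z hz
  have d1 := hs _ hz _ h10 _ h11 _ h01
  have d2 := hs _ h00 _ hz _ h11 _ h01
  have d3 := hs _ h00 _ h10 _ hz _ h01
  have d4 := hs _ h00 _ h10 _ h11 _ hz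
  simp at d1 d2 d3 d4
  refine ⟨by nlinarith, by nlinarith, by nlinarith, by nlinarith⟩


lemma null_fst (c : ℝ) : volume {z : ℝ × ℝ | z.1 = c} = 0 := by
  have : {z : ℝ × ℝ | z.1 = c} = {c} ×ˢ (univ : Set ℝ) := by
    ext z; simp
  rw [this, Measure.volume_eq_prod, Measure.prod_prod]; simp

lemma null_snd (c : ℝ) : volume {z : ℝ × ℝ | z.2 = c} = 0 := by
  have : {z : ℝ × ℝ | z.2 = c} = (univ : Set ℝ) ×ˢ {c} := by
    ext z; simp
  rw [this, Measure.volume_eq_prod, Measure.prod_prod]; simp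

lemma tri_halfplane {p q r : ℝ × ℝ} {A B c : ℝ} (hp : A * p.1 + B * p.2 ≤ c)
    (hq : A * q.1 + B * q.2 ≤ c) (hr : A * r.1 + B * r.2 ≤ c) :
    ∀ z ∈ convexHull ℝ ({p, q, r} : Set (ℝ × ℝ)), A * z.1 + B * z.2 ≤ c := by
  have : convexHull ℝ ({p, q, r} : Set (ℝ × ℝ)) ⊆ {z | A * z.1 + B * z.2 ≤ c} := by
    apply convexHull_min
    · intro x hx
      simp only [mem_insert_iff, mem_singleton_iff] at hx
      rcases hx with rfl | rfl | rfl <;> assumption
    · intro x hx y hy α β hα hβ hab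
      simp only [mem_setOf_eq, Prod.fst_add, Prod.smul_fst, Prod.snd_add, Prod.smul_snd,
        smul_eq_mul] at *
      have : A * (α * x.1 + β * y.1) + B * (α * x.2 + β * y.2)
          = α * (A * x.1 + B * x.2) + β * (A * y.1 + B * y.2) := by ring
      rw [this]
      have e : c = α * c + β * c := by rw [← add_mul, hab, one_mul]
      rw [e]
      exact add_le_add (mul_le_mul_of_nonneg_left hx hα) (mul_le_mul_of_nonneg_left hy hβ)
  intro z hz; exact this hz

lemma isCompact_tri (p q r : ℝ × ℝ) : IsCompact (convexHull ℝ ({p, q, r} : Set (ℝ × ℝ))) :=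
  (Set.toFinite _).isCompact_convexHull ℝ

/-- the union of the unit square and the four triangles -/
def CC (TA TB TC TD : ℝ × ℝ) : Set (ℝ × ℝ) :=
  (Icc 0 1 ×ˢ Icc 0 1) ∪ convexHull ℝ {(1, 0), TC, (1, 1)} ∪ convexHull ℝ {(0, 0), (0, 1), TA}
    ∪ convexHull ℝ {(0, 1), (1, 1), TB} ∪ convexHull ℝ {(0, 0), (1, 0), TD}

lemma CC_closed (TA TB TC TD : ℝ × ℝ) : IsClosed (CC TA TB TC TD) := by
  unfold CC
  exact ((((isClosed_Icc.prod isClosed_Icc).union (isCompact_tri _ _ _).isClosed).union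
    (isCompact_tri _ _ _).isClosed).union (isCompact_tri _ _ _).isClosed).union
    (isCompact_tri _ _ _).isClosed

lemma square_subset {K : Set (ℝ × ℝ)} (hK : Convex ℝ K) (h00 : ((0, 0) : ℝ × ℝ) ∈ K)
    (h10 : ((1, 0) : ℝ × ℝ) ∈ K) (h01 : ((0, 1) : ℝ × ℝ) ∈ K) (h11 : ((1, 1) : ℝ × ℝ) ∈ K) :
    (Icc 0 1 ×ˢ Icc 0 1 : Set (ℝ × ℝ)) ⊆ K := by
  rintro ⟨x, y⟩ ⟨⟨hx0, hx1⟩, ⟨hy0, hy1⟩⟩
  simp only at hx0 hx1 hy0 hy1
  have b1 : ((x, 0) : ℝ × ℝ) ∈ K := by
    have := hK h00 h10 (by linarith : (0:ℝ) ≤ 1 - x) hx0 (by ring)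
    simpa using this
  have b2 : ((x, 1) : ℝ × ℝ) ∈ K := by
    have := hK h01 h11 (by linarith : (0:ℝ) ≤ 1 - x) hx0 (by ring)
    simpa using this
  have := hK b1 b2 (by linarith : (0:ℝ) ≤ 1 - y) hy0 (by ring)
  have e : (1 - y) • ((x, 0) : ℝ × ℝ) + y • ((x, 1) : ℝ × ℝ) = (x, y) := by
    ext
    · simp; ring
    · simp
  rw [e] at this; exact this

lemma CC_subset {K : Set (ℝ × ℝ)} (hK : Convex ℝ K) (h00 : ((0, 0) : ℝ × ℝ) ∈ K)
    (h10 : ((1, 0) : ℝ × ℝ) ∈ K) (h01 : ((0, 1) : ℝ × ℝ) ∈ K) (h11 : ((1, 1) : ℝ × ℝ) ∈ K)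
    {TA TB TC TD : ℝ × ℝ} (hA : TA ∈ K) (hB : TB ∈ K) (hC : TC ∈ K) (hD : TD ∈ K) :
    CC TA TB TC TD ⊆ K := by
  have htri : ∀ p ∈ K, ∀ q ∈ K, ∀ r ∈ K, convexHull ℝ ({p, q, r} : Set (ℝ × ℝ)) ⊆ K := by
    intro p hp q hq r hr
    apply convexHull_min _ hK
    intro x hx
    simp only [mem_insert_iff, mem_singleton_iff] at hx
    rcases hx with rfl | rfl | rfl <;> assumption
  unfold CC
  refine union_subset (union_subset (union_subset (union_subset ?_ ?_) ?_) ?_) ?_
  · exact square_subset hK h00 h10 h01 h11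
  · exact htri _ h10 _ hC _ h11
  · exact htri _ h00 _ h01 _ hA
  · exact htri _ h01 _ h11 _ hB
  · exact htri _ h00 _ h10 _ hD

lemma CC_halfplane {TA TB TC TD : ℝ × ℝ} {A B c : ℝ} (h00 : 0 ≤ c) (h10 : A ≤ c) (h01 : B ≤ c)
    (h11 : A + B ≤ c) (hA : A * TA.1 + B * TA.2 ≤ c) (hB : A * TB.1 + B * TB.2 ≤ c)
    (hC : A * TC.1 + B * TC.2 ≤ c) (hD : A * TD.1 + B * TD.2 ≤ c) :
    ∀ z ∈ CC TA TB TC TD, A * z.1 + B * z.2 ≤ c := by
  intro z hz
  rcases hz with (((hz | hz) | hz) | hz) | hz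
  · obtain ⟨⟨a1, a2⟩, ⟨a3, a4⟩⟩ := hz
    -- bilinear: convex combination
    have e : A * z.1 + B * z.2 = (1 - z.1) * ((1 - z.2) * 0 + z.2 * B)
        + z.1 * ((1 - z.2) * A + z.2 * (A + B)) := by ring
    have e2 : c = (1 - z.1) * ((1 - z.2) * c + z.2 * c) + z.1 * ((1 - z.2) * c + z.2 * c) := by ring
    rw [e, e2]
    have i1 : (1 - z.2) * 0 + z.2 * B ≤ (1 - z.2) * c + z.2 * c :=
      add_le_add (mul_le_mul_of_nonneg_left h00 (by linarith))
        (mul_le_mul_of_nonneg_left h01 a3)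
    have i2 : (1 - z.2) * A + z.2 * (A + B) ≤ (1 - z.2) * c + z.2 * c :=
      add_le_add (mul_le_mul_of_nonneg_left h10 (by linarith))
        (mul_le_mul_of_nonneg_left h11 a3)
    exact add_le_add (mul_le_mul_of_nonneg_left i1 (by linarith))
      (mul_le_mul_of_nonneg_left i2 a1)
  · exact tri_halfplane (by simpa using h10) hC (by simpa using h11) z hz
  · exact tri_halfplane (by simpa using h00) (by simpa using h01) hA z hz
  · exact tri_halfplane (by simpa using h01) (by simpa using h11) hB z hz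
  · exact tri_halfplane (by simpa using h00) (by simpa using h10) hD z hz

lemma vol_ge_of_ge_fst {S : Set (ℝ × ℝ)} {c : ℝ} (h : ∀ z ∈ S, c ≤ z.1) :
    volume S ≤ volume (S ∩ {z | c < z.1}) := by
  have : S ⊆ (S ∩ {z | c < z.1}) ∪ {z : ℝ × ℝ | z.1 = c} := by
    intro z hz
    rcases (h z hz).lt_or_eq with h1 | h1
    · left; exact ⟨hz, h1⟩
    · right; exact h1.symm
  calc volume S ≤ volume ((S ∩ {z | c < z.1}) ∪ {z : ℝ × ℝ | z.1 = c}) := measure_mono this
    _ ≤ volume (S ∩ {z | c < z.1}) + volume {z : ℝ × ℝ | z.1 = c} := measure_union_le _ _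
    _ = volume (S ∩ {z | c < z.1}) := by rw [null_fst, add_zero]

lemma vol_ge_of_le_fst {S : Set (ℝ × ℝ)} {c : ℝ} (h : ∀ z ∈ S, z.1 ≤ c) :
    volume S ≤ volume (S ∩ {z | z.1 < c}) := by
  have : S ⊆ (S ∩ {z | z.1 < c}) ∪ {z : ℝ × ℝ | z.1 = c} := by
    intro z hz
    rcases (h z hz).lt_or_eq with h1 | h1
    · left; exact ⟨hz, h1⟩
    · right; exact h1
  calc volume S ≤ volume ((S ∩ {z | z.1 < c}) ∪ {z : ℝ × ℝ | z.1 = c}) := measure_mono this
    _ ≤ volume (S ∩ {z | z.1 < c}) + volume {z : ℝ × ℝ | z.1 = c} := measure_union_le _ _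
    _ = volume (S ∩ {z | z.1 < c}) := by rw [null_fst, add_zero]

lemma vol_ge_of_ge_snd {S : Set (ℝ × ℝ)} {c : ℝ} (h : ∀ z ∈ S, c ≤ z.2) :
    volume S ≤ volume (S ∩ {z | c < z.2}) := by
  have : S ⊆ (S ∩ {z | c < z.2}) ∪ {z : ℝ × ℝ | z.2 = c} := by
    intro z hz
    rcases (h z hz).lt_or_eq with h1 | h1
    · left; exact ⟨hz, h1⟩
    · right; exact h1.symm
  calc volume S ≤ volume ((S ∩ {z | c < z.2}) ∪ {z : ℝ × ℝ | z.2 = c}) := measure_mono this
    _ ≤ volume (S ∩ {z | c < z.2}) + volume {z : ℝ × ℝ | z.2 = c} := measure_union_le _ _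
    _ = volume (S ∩ {z | c < z.2}) := by rw [null_snd, add_zero]

lemma vol_ge_of_le_snd {S : Set (ℝ × ℝ)} {c : ℝ} (h : ∀ z ∈ S, z.2 ≤ c) :
    volume S ≤ volume (S ∩ {z | z.2 < c}) := by
  have : S ⊆ (S ∩ {z | z.2 < c}) ∪ {z : ℝ × ℝ | z.2 = c} := by
    intro z hz
    rcases (h z hz).lt_or_eq with h1 | h1
    · left; exact ⟨hz, h1⟩
    · right; exact h1
  calc volume S ≤ volume ((S ∩ {z | z.2 < c}) ∪ {z : ℝ × ℝ | z.2 = c}) := measure_mono this
    _ ≤ volume (S ∩ {z | z.2 < c}) + volume {z : ℝ × ℝ | z.2 = c} := measure_union_le _ _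
    _ = volume (S ∩ {z | z.2 < c}) := by rw [null_snd, add_zero]

lemma vol_CC {TA TB TC TD : ℝ × ℝ} (hA : TA.1 ≤ 0) (hB : 1 ≤ TB.2) (hC : 1 ≤ TC.1) (hD : TD.2 ≤ 0)
    {a b : ℝ} (ha0 : 0 ≤ a) (ha1 : a ≤ 1) (hb0 : 0 ≤ b) (hb1 : b ≤ 1)
    (hq : ∀ z ∈ CC TA TB TC TD,
      -b * z.1 + a * (z.2 - 1) ≤ 0 ∧ b * (z.1 - 1) + (1 - a) * (z.2 - 1) ≤ 0 ∧
      (1 - b) * (z.1 - 1) - (1 - a) * z.2 ≤ 0 ∧ -(1 - b) * z.1 - a * z.2 ≤ 0) :
    ENNReal.ofReal (1 + ((TC.1 - 1) + (-TA.1) + (TB.2 - 1) + (-TD.2)) / 2)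
      ≤ volume (CC TA TB TC TD) := by
  set RR := convexHull ℝ ({(1, 0), TC, (1, 1)} : Set (ℝ × ℝ)) with hRR
  set LL := convexHull ℝ ({(0, 0), (0, 1), TA} : Set (ℝ × ℝ)) with hLL
  set UU := convexHull ℝ ({(0, 1), (1, 1), TB} : Set (ℝ × ℝ)) with hUU
  set DD := convexHull ℝ ({(0, 0), (1, 0), TD} : Set (ℝ × ℝ)) with hDD
  set R := RR ∩ {z | 1 < z.1} with hR
  set L := LL ∩ {z | z.1 < 0} with hL
  set U := UU ∩ {z | 1 < z.2} with hU
  set D := DD ∩ {z | z.2 < 0} with hD'
  set I : Set (ℝ × ℝ) := Ioo 0 1 ×ˢ Ioo 0 1 with hI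
  have mR : MeasurableSet R := (isCompact_tri _ _ _).isClosed.measurableSet.inter
    (measurableSet_lt measurable_const measurable_fst)
  have mL : MeasurableSet L := (isCompact_tri _ _ _).isClosed.measurableSet.inter
    (measurableSet_lt measurable_fst measurable_const)
  have mU : MeasurableSet U := (isCompact_tri _ _ _).isClosed.measurableSet.inter
    (measurableSet_lt measurable_const measurable_snd)
  have mD : MeasurableSet D := (isCompact_tri _ _ _).isClosed.measurableSet.inter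
    (measurableSet_lt measurable_snd measurable_const)
  have vR : ENNReal.ofReal ((TC.1 - 1) / 2) ≤ volume R := by
    refine le_trans (le_of_eq ?_) (vol_ge_of_ge_fst (S := RR) (c := 1) ?_)
    · rw [hRR, vol_tri]
      congr 2
      simp only [cr]
      rw [abs_of_nonneg] <;> norm_num; linarith
    · intro z hz
      have := tri_halfplane (A := -1) (B := 0) (c := -1) (by norm_num) (by simpa using hC)
        (by norm_num) z hz
      linarith
  have vL : ENNReal.ofReal ((-TA.1) / 2) ≤ volume L := by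
    refine le_trans (le_of_eq ?_) (vol_ge_of_le_fst (S := LL) (c := 0) ?_)
    · rw [hLL, vol_tri]
      congr 2
      simp only [cr]
      rw [abs_of_nonneg] <;> norm_num; linarith
    · intro z hz
      have := tri_halfplane (A := 1) (B := 0) (c := 0) (by norm_num) (by norm_num)
        (by simpa using hA) z hz
      linarith
  have vU : ENNReal.ofReal ((TB.2 - 1) / 2) ≤ volume U := by
    refine le_trans (le_of_eq ?_) (vol_ge_of_ge_snd (S := UU) (c := 1) ?_)
    · rw [hUU, vol_tri]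
      congr 2
      simp only [cr]
      rw [abs_of_nonneg] <;> norm_num; linarith
    · intro z hz
      have := tri_halfplane (A := 0) (B := -1) (c := -1) (by norm_num) (by norm_num)
        (by simpa using hB) z hz
      linarith
  have vD : ENNReal.ofReal ((-TD.2) / 2) ≤ volume D := by
    refine le_trans (le_of_eq ?_) (vol_ge_of_le_snd (S := DD) (c := 0) ?_)
    · rw [hDD, vol_tri]
      congr 2
      simp only [cr]
      rw [abs_of_nonpos] <;> norm_num; linarith
    · intro z hz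
      have := tri_halfplane (A := 0) (B := 1) (c := 0) (by norm_num) (by norm_num)
        (by simpa using hD) z hz
      linarith
  have vI : volume I = 1 := by
    rw [hI, Measure.volume_eq_prod, Measure.prod_prod]; simp
  have sR : R ⊆ CC TA TB TC TD := fun z hz => Or.inl (Or.inl (Or.inl (Or.inr hz.1)))
  have sL : L ⊆ CC TA TB TC TD := fun z hz => Or.inl (Or.inl (Or.inr hz.1))
  have sU : U ⊆ CC TA TB TC TD := fun z hz => Or.inl (Or.inr hz.1)
  have sD : D ⊆ CC TA TB TC TD := fun z hz => Or.inr hz.1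
  have sI : I ⊆ CC TA TB TC TD := fun z hz => Or.inl (Or.inl (Or.inl (Or.inl
    ⟨⟨hz.1.1.le, hz.1.2.le⟩, ⟨hz.2.1.le, hz.2.2.le⟩⟩)))
  have d1 : Disjoint I R := by
    rw [Set.disjoint_left]; rintro z ⟨⟨_, h1⟩, _⟩ ⟨_, h2⟩
    simp only [mem_setOf_eq] at h2; linarith
  have d2 : Disjoint (I ∪ R) L := by
    rw [Set.disjoint_left]; rintro z (⟨⟨h0, h1⟩, _⟩ | ⟨_, h1⟩) ⟨_, h2⟩ <;>
      simp only [mem_setOf_eq] at h1 h2 <;> linarith
  have d3 : Disjoint (I ∪ R ∪ L) U := by
    rw [Set.disjoint_left]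
    rintro z ((⟨_, ⟨h0, h1⟩⟩ | hz) | hz) hz2
    · have := hz2.2; simp only [mem_setOf_eq] at this; linarith
    · obtain ⟨i1, i2, i3, i4⟩ := hq z (sR hz)
      have j1 := hz.2; have j2 := hz2.2
      simp only [mem_setOf_eq] at j1 j2
      have : 0 < b := by linarith
      nlinarith [mul_pos this (sub_pos.mpr j1), mul_nonneg (sub_nonneg.mpr ha1) (sub_pos.mpr j2).le]
    · obtain ⟨i1, i2, i3, i4⟩ := hq z (sL hz)
      have j1 := hz.2; have j2 := hz2.2
      simp only [mem_setOf_eq] at j1 j2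
      have : 0 < b := by linarith
      nlinarith [mul_pos this (neg_pos.mpr j1), mul_nonneg ha0 (sub_pos.mpr j2).le]
  have d4 : Disjoint (I ∪ R ∪ L ∪ U) D := by
    rw [Set.disjoint_left]
    rintro z (((⟨_, ⟨h0, h1⟩⟩ | hz) | hz) | hz) hz2
    · have := hz2.2; simp only [mem_setOf_eq] at this; linarith
    · obtain ⟨i1, i2, i3, i4⟩ := hq z (sR hz)
      have j1 := hz.2; have j2 := hz2.2
      simp only [mem_setOf_eq] at j1 j2
      have : 0 < 1 - b := by linarith
      nlinarith [mul_pos this (sub_pos.mpr j1), mul_nonneg (sub_nonneg.mpr ha1) (neg_pos.mpr j2).le]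
    · obtain ⟨i1, i2, i3, i4⟩ := hq z (sL hz)
      have j1 := hz.2; have j2 := hz2.2
      simp only [mem_setOf_eq] at j1 j2
      have : 0 < 1 - b := by linarith
      nlinarith [mul_pos this (neg_pos.mpr j1), mul_nonneg ha0 (neg_pos.mpr j2).le]
    · have j1 := hz.2; have j2 := hz2.2
      simp only [mem_setOf_eq] at j1 j2; linarith
  have hunion : volume (I ∪ R ∪ L ∪ U ∪ D) = volume I + volume R + volume L + volume U + volume D := by
    rw [measure_union d4 mD, measure_union d3 mU, measure_union d2 mL, measure_union d1 mR]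
  have hsub : I ∪ R ∪ L ∪ U ∪ D ⊆ CC TA TB TC TD :=
    union_subset (union_subset (union_subset (union_subset sI sR) sL) sU) sD
  calc ENNReal.ofReal (1 + ((TC.1 - 1) + (-TA.1) + (TB.2 - 1) + (-TD.2)) / 2)
      = ENNReal.ofReal 1 + ENNReal.ofReal ((TC.1 - 1) / 2) + ENNReal.ofReal ((-TA.1) / 2)
        + ENNReal.ofReal ((TB.2 - 1) / 2) + ENNReal.ofReal ((-TD.2) / 2) := by
        rw [← ENNReal.ofReal_add (by norm_num) (by linarith),
          ← ENNReal.ofReal_add (by linarith) (by linarith),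
          ← ENNReal.ofReal_add (by linarith) (by linarith),
          ← ENNReal.ofReal_add (by linarith) (by linarith)]
        congr 1; ring
    _ ≤ volume I + volume R + volume L + volume U + volume D := by
        rw [vI, ENNReal.ofReal_one]
        gcongr
    _ = volume (I ∪ R ∪ L ∪ U ∪ D) := hunion.symm
    _ ≤ _ := measure_mono hsub

lemma subset_of_volume {K C : Set (ℝ × ℝ)} (hK : Convex ℝ K) (hint : (interior K).Nonempty)
    (hC : IsClosed C) (hCK : C ⊆ K) (hvol : volume K ≤ volume C) (hfin : volume K ≠ ⊤) :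
    K ⊆ C := by
  intro z hz
  by_contra hzC
  have h1 : z ∈ closure (interior K) := by
    rw [hK.closure_interior_eq_closure_of_nonempty_interior hint]
    exact subset_closure hz
  have hopen : IsOpen (interior K ∩ Cᶜ) := isOpen_interior.inter hC.isOpen_compl
  have hne : (interior K ∩ Cᶜ).Nonempty := by
    rw [mem_closure_iff] at h1
    obtain ⟨w, hw1, hw2⟩ := h1 Cᶜ hC.isOpen_compl hzC
    exact ⟨w, hw2, hw1⟩
  have hpos : 0 < volume (interior K ∩ Cᶜ) := hopen.measure_pos volume hne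
  have hsub : interior K ∩ Cᶜ ⊆ K \ C := fun w hw => ⟨interior_subset hw.1, hw.2⟩
  have hdiff : volume (K \ C) = volume K - volume C :=
    measure_diff hCK hC.measurableSet.nullMeasurableSet (ne_top_of_le_ne_top hfin (measure_mono hCK))
  have hz0 : volume (K \ C) = 0 := by rw [hdiff]; exact tsub_eq_zero_of_le hvol
  have := measure_mono (μ := (volume : Measure (ℝ × ℝ))) hsub
  rw [hz0] at this
  exact absurd this (not_le.mpr hpos)


lemma core {K : Set (ℝ × ℝ)} {c : ℝ} (hc : 0 < c)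
    (hbox : ∀ z ∈ K, -c ≤ z.1 ∧ z.1 ≤ c ∧ -c ≤ z.2 ∧ z.2 ≤ c) {yC xB κ : ℝ} (hκ : 0 < κ)
    (hyC : |yC| ≤ c) (hxB : |xB| ≤ c)
    (hR : ∀ φ, |φ| ≤ κ → ∀ z ∈ K, z.1 ≤ c + φ * (z.2 - yC))
    (hT : ∀ ψ, |ψ| ≤ κ → ∀ z ∈ K, z.2 ≤ c + ψ * (z.1 - xB)) : Good K (4 * c ^ 2) := by
  set κ' := min κ (1 / 2) with hκ'
  have hκ'0 : 0 < κ' := lt_min hκ (by norm_num)
  have hκ'1 : κ' ≤ κ := min_le_left _ _
  have hκ'2 : κ' ≤ 1 / 2 := min_le_right _ _
  by_cases hy : yC = 0
  · by_cases hx : xB = 0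
    · subst hy; subst hx
      set ε := κ' with hε
      have e1 : 0 < 1 + ε ^ 2 := by positivity
      refine ⟨(-c, -c), (c * (1 - ε), -c), (c * (1 + ε) / (1 + ε ^ 2), c * (1 - ε) / (1 + ε ^ 2)),
        (-c, c * (1 + ε)), ⟨?_, ?_, ?_, ?_⟩, ?_, ?_⟩
      · have : cr (-c, -c) (c * (1 - ε), -c) (c * (1 + ε) / (1 + ε ^ 2), c * (1 - ε) / (1 + ε ^ 2))
            = c ^ 2 * (2 - ε) * ((1 - ε) / (1 + ε ^ 2) + 1) := by
          simp only [cr]; field_simp; ring
        rw [this]
        have : 0 < (1 - ε) / (1 + ε ^ 2) := div_pos (by linarith) e1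
        have : 0 < 2 - ε := by linarith
        positivity
      · have : cr (c * (1 - ε), -c) (c * (1 + ε) / (1 + ε ^ 2), c * (1 - ε) / (1 + ε ^ 2))
            (-c, c * (1 + ε))
            = c ^ 2 * (ε * (2 - ε + ε ^ 2) * (2 + ε) + (2 - ε + ε ^ 2) * (2 - ε)) / (1 + ε ^ 2) := by
          simp only [cr]; field_simp; ring
        rw [this]
        have : 0 < 2 - ε := by linarith
        positivity
      · have : cr (c * (1 + ε) / (1 + ε ^ 2), c * (1 - ε) / (1 + ε ^ 2)) (-c, c * (1 + ε)) (-c, -c)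
            = c ^ 2 * (2 + ε) * ((1 + ε) / (1 + ε ^ 2) + 1) := by
          simp only [cr]; field_simp; ring
        rw [this]; positivity
      · have : cr (-c, c * (1 + ε)) (-c, -c) (c * (1 - ε), -c) = c ^ 2 * (2 + ε) * (2 - ε) := by
          simp only [cr]; ring
        rw [this]
        have : 0 < 2 - ε := by linarith
        positivity
      · intro z hz
        obtain ⟨b1, b2, b3, b4⟩ := hbox z hz
        have r1 := hR ε (by rw [abs_of_pos hκ'0]; exact hκ'1) z hz
        have r2 := hT (-ε) (by rw [abs_neg, abs_of_pos hκ'0]; exact hκ'1) z hz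
        apply quad_mem
        · refine ⟨?_, ?_, ?_, ?_⟩
          · have : cr (-c, -c) (c * (1 - ε), -c) (c * (1 + ε) / (1 + ε ^ 2), c * (1 - ε) / (1 + ε ^ 2))
                = c ^ 2 * (2 - ε) * ((1 - ε) / (1 + ε ^ 2) + 1) := by
              simp only [cr]; field_simp; ring
            rw [this]
            have : 0 < (1 - ε) / (1 + ε ^ 2) := div_pos (by linarith) e1
            have : 0 < 2 - ε := by linarith
            positivity
          · have : cr (c * (1 - ε), -c) (c * (1 + ε) / (1 + ε ^ 2), c * (1 - ε) / (1 + ε ^ 2))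
                (-c, c * (1 + ε))
                = c ^ 2 * (ε * (2 - ε + ε ^ 2) * (2 + ε) + (2 - ε + ε ^ 2) * (2 - ε))
                  / (1 + ε ^ 2) := by
              simp only [cr]; field_simp; ring
            rw [this]
            have : 0 < 2 - ε := by linarith
            positivity
          · have : cr (c * (1 + ε) / (1 + ε ^ 2), c * (1 - ε) / (1 + ε ^ 2)) (-c, c * (1 + ε)) (-c, -c)
                = c ^ 2 * (2 + ε) * ((1 + ε) / (1 + ε ^ 2) + 1) := by
              simp only [cr]; field_simp; ring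
            rw [this]; positivity
          · have : cr (-c, c * (1 + ε)) (-c, -c) (c * (1 - ε), -c) = c ^ 2 * (2 + ε) * (2 - ε) := by
              simp only [cr]; ring
            rw [this]
            have : 0 < 2 - ε := by linarith
            positivity
        · have : cr (-c, -c) (c * (1 - ε), -c) z = c * (2 - ε) * (z.2 + c) := by
            simp only [cr]; ring
          rw [this]
          have h1 : 0 ≤ 2 - ε := by linarith
          have h2 : 0 ≤ z.2 + c := by linarith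
          positivity
        · have : cr (c * (1 - ε), -c) (c * (1 + ε) / (1 + ε ^ 2), c * (1 - ε) / (1 + ε ^ 2)) z
              = c * (2 - ε + ε ^ 2) / (1 + ε ^ 2) * (c + ε * (z.2 - 0) - z.1) := by
            simp only [cr]; field_simp; ring
          rw [this]
          have h1 : 0 ≤ 2 - ε + ε ^ 2 := by nlinarith
          have h2 : 0 ≤ c + ε * (z.2 - 0) - z.1 := by linarith
          positivity
        · have : cr (c * (1 + ε) / (1 + ε ^ 2), c * (1 - ε) / (1 + ε ^ 2)) (-c, c * (1 + ε)) z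
              = c * (2 + ε + ε ^ 2) / (1 + ε ^ 2) * (c + (-ε) * (z.1 - 0) - z.2) := by
            simp only [cr]; field_simp; ring
          rw [this]
          have h2 : 0 ≤ c + (-ε) * (z.1 - 0) - z.2 := by linarith
          positivity
        · have : cr (-c, c * (1 + ε)) (-c, -c) z = c * (2 + ε) * (z.1 + c) := by
            simp only [cr]; ring
          rw [this]
          have h2 : 0 ≤ z.1 + c := by linarith
          positivity
      · have : (cr (-c, -c) (c * (1 - ε), -c)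
            (c * (1 + ε) / (1 + ε ^ 2), c * (1 - ε) / (1 + ε ^ 2))
            + cr (-c, -c) (c * (1 + ε) / (1 + ε ^ 2), c * (1 - ε) / (1 + ε ^ 2)) (-c, c * (1 + ε))) / 2
            = 4 * c ^ 2 - c ^ 2 * ε ^ 2 / (1 + ε ^ 2) := by
          simp only [cr]; field_simp; ring
        rw [this]
        have : 0 < c ^ 2 * ε ^ 2 / (1 + ε ^ 2) := by positivity
        linarith
    · -- rotate the top side
      set ψ := κ' * xB / (c + 1) with hψ
      have hc1 : 0 < c + 1 := by linarith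
      have hψa : |ψ| ≤ κ' := by
        rw [hψ, abs_div, abs_mul, abs_of_pos hκ'0, abs_of_pos hc1, div_le_iff₀ hc1]
        have : |xB| ≤ c + 1 := by linarith
        exact mul_le_mul_of_nonneg_left this hκ'0.le
      have hψx : 0 < ψ * xB := by
        have : ψ * xB = κ' * xB ^ 2 / (c + 1) := by rw [hψ]; ring
        rw [this]
        have : 0 < xB ^ 2 := by positivity
        positivity
      have hψ1 := abs_le.mp hψa
      have hx1 := abs_le.mp hxB
      have p1 : 0 < 2 * c + ψ * (c - xB) := by nlinarith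
      have p2 : 0 < 2 * c - ψ * (c + xB) := by nlinarith
      have hq : IsConvexQuad (-c, -c) (c, -c) (c, c + ψ * (c - xB)) (-c, c + ψ * (-c - xB)) := by
        refine ⟨?_, ?_, ?_, ?_⟩
        · have : cr (-c, -c) (c, -c) (c, c + ψ * (c - xB)) = 2 * c * (2 * c + ψ * (c - xB)) := by
            simp only [cr]; ring
          rw [this]; positivity
        · have : cr (c, -c) (c, c + ψ * (c - xB)) (-c, c + ψ * (-c - xB))
              = 2 * c * (2 * c + ψ * (c - xB)) := by
            simp only [cr]; ring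
          rw [this]; positivity
        · have : cr (c, c + ψ * (c - xB)) (-c, c + ψ * (-c - xB)) (-c, -c)
              = 2 * c * (2 * c - ψ * (c + xB)) := by
            simp only [cr]; ring
          rw [this]; positivity
        · have : cr (-c, c + ψ * (-c - xB)) (-c, -c) (c, -c) = 2 * c * (2 * c - ψ * (c + xB)) := by
            simp only [cr]; ring
          rw [this]; positivity
      refine ⟨_, _, _, _, hq, ?_, ?_⟩
      · intro z hz
        obtain ⟨b1, b2, b3, b4⟩ := hbox z hz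
        have r2 := hT ψ (hψa.trans hκ'1) z hz
        apply quad_mem hq
        · have : cr (-c, -c) (c, -c) z = 2 * c * (z.2 + c) := by simp only [cr]; ring
          rw [this]
          have h2 : 0 ≤ z.2 + c := by linarith
          positivity
        · have : cr (c, -c) (c, c + ψ * (c - xB)) z = (2 * c + ψ * (c - xB)) * (c - z.1) := by
            simp only [cr]; ring
          rw [this]
          have h2 : 0 ≤ c - z.1 := by linarith
          positivity
        · have : cr (c, c + ψ * (c - xB)) (-c, c + ψ * (-c - xB)) z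
              = 2 * c * (c + ψ * (z.1 - xB) - z.2) := by
            simp only [cr]; ring
          rw [this]
          have h2 : 0 ≤ c + ψ * (z.1 - xB) - z.2 := by linarith
          positivity
        · have : cr (-c, c + ψ * (-c - xB)) (-c, -c) z
              = (2 * c - ψ * (c + xB)) * (z.1 + c) := by
            simp only [cr]; ring
          rw [this]
          have h2 : 0 ≤ z.1 + c := by linarith
          positivity
      · have : (cr (-c, -c) (c, -c) (c, c + ψ * (c - xB))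
            + cr (-c, -c) (c, c + ψ * (c - xB)) (-c, c + ψ * (-c - xB))) / 2
            = 4 * c ^ 2 - 2 * c * (ψ * xB) := by
          simp only [cr]; ring
        rw [this]
        have : 0 < 2 * c * (ψ * xB) := by positivity
        linarith
  · -- rotate the right side
    set φ := κ' * yC / (c + 1) with hφ
    have hc1 : 0 < c + 1 := by linarith
    have hφa : |φ| ≤ κ' := by
      rw [hφ, abs_div, abs_mul, abs_of_pos hκ'0, abs_of_pos hc1, div_le_iff₀ hc1]
      have : |yC| ≤ c + 1 := by linarith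
      exact mul_le_mul_of_nonneg_left this hκ'0.le
    have hφx : 0 < φ * yC := by
      have : φ * yC = κ' * yC ^ 2 / (c + 1) := by rw [hφ]; ring
      rw [this]
      have : 0 < yC ^ 2 := by positivity
      positivity
    have hφ1 := abs_le.mp hφa
    have hx1 := abs_le.mp hyC
    have p1 : 0 < 2 * c + φ * (c - yC) := by nlinarith
    have p2 : 0 < 2 * c - φ * (c + yC) := by nlinarith
    have hq : IsConvexQuad (-c, -c) (c + φ * (-c - yC), -c) (c + φ * (c - yC), c) (-c, c) := by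
      refine ⟨?_, ?_, ?_, ?_⟩
      · have : cr (-c, -c) (c + φ * (-c - yC), -c) (c + φ * (c - yC), c)
            = 2 * c * (2 * c - φ * (c + yC)) := by
          simp only [cr]; ring
        rw [this]; positivity
      · have : cr (c + φ * (-c - yC), -c) (c + φ * (c - yC), c) (-c, c)
            = 2 * c * (2 * c + φ * (c - yC)) := by
          simp only [cr]; ring
        rw [this]; positivity
      · have : cr (c + φ * (c - yC), c) (-c, c) (-c, -c) = 2 * c * (2 * c + φ * (c - yC)) := by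
          simp only [cr]; ring
        rw [this]; positivity
      · have : cr (-c, c) (-c, -c) (c + φ * (-c - yC), -c) = 2 * c * (2 * c - φ * (c + yC)) := by
          simp only [cr]; ring
        rw [this]; positivity
    refine ⟨_, _, _, _, hq, ?_, ?_⟩
    · intro z hz
      obtain ⟨b1, b2, b3, b4⟩ := hbox z hz
      have r1 := hR φ (hφa.trans hκ'1) z hz
      apply quad_mem hq
      · have : cr (-c, -c) (c + φ * (-c - yC), -c) z = (2 * c - φ * (c + yC)) * (z.2 + c) := by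
          simp only [cr]; ring
        rw [this]
        have h2 : 0 ≤ z.2 + c := by linarith
        positivity
      · have : cr (c + φ * (-c - yC), -c) (c + φ * (c - yC), c) z
            = 2 * c * (c + φ * (z.2 - yC) - z.1) := by
          simp only [cr]; ring
        rw [this]
        have h2 : 0 ≤ c + φ * (z.2 - yC) - z.1 := by linarith
        positivity
      · have : cr (c + φ * (c - yC), c) (-c, c) z = (2 * c + φ * (c - yC)) * (c - z.2) := by
          simp only [cr]; ring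
        rw [this]
        have h2 : 0 ≤ c - z.2 := by linarith
        positivity
      · have : cr (-c, c) (-c, -c) z = 2 * c * (z.1 + c) := by simp only [cr]; ring
        rw [this]
        have h2 : 0 ≤ z.1 + c := by linarith
        positivity
    · have : (cr (-c, -c) (c + φ * (-c - yC), -c) (c + φ * (c - yC), c)
          + cr (-c, -c) (c + φ * (c - yC), c) (-c, c)) / 2
          = 4 * c ^ 2 - 2 * c * (φ * yC) := by
        simp only [cr]; ring
      rw [this]
      have : 0 < 2 * c * (φ * yC) := by positivity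
      linarith




lemma case_big {K : Set (ℝ × ℝ)} {a b v : ℝ} (ha0 : 0 ≤ a) (ha1 : a ≤ 1) (hb0 : 0 ≤ b)
    (hb1 : b ≤ 1)
    (hq : ∀ z ∈ K,
      -b * z.1 + a * (z.2 - 1) ≤ 0 ∧ b * (z.1 - 1) + (1 - a) * (z.2 - 1) ≤ 0 ∧
      (1 - b) * (z.1 - 1) - (1 - a) * z.2 ≤ 0 ∧ -(1 - b) * z.1 - a * z.2 ≤ 0)
    (hv : 2 < v) : Good K v := by
  set ρ := v - 2 with hρ
  have hρ0 : 0 < ρ := by linarith
  set ε := min 1 (ρ / 32) with hε
  have hε0 : 0 < ε := lt_min one_pos (by positivity)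
  have hε1 : ε ≤ 1 := min_le_left _ _
  have hε2 : ε ≤ ρ / 32 := min_le_right _ _
  have hQ : IsConvexQuad (-a - 2 * ε, 1 - b) (a, b - 1 - 2 * ε) (2 - a + 2 * ε, 1 - b)
      (a, 1 + b + 2 * ε) := by
    refine ⟨?_, ?_, ?_, ?_⟩
    · have : cr (-a - 2 * ε, 1 - b) (a, b - 1 - 2 * ε) (2 - a + 2 * ε, 1 - b)
          = (2 * (1 - b) + 2 * ε) * (2 + 4 * ε) := by simp only [cr]; ring
      rw [this]
      have : 0 ≤ 1 - b := by linarith
      positivity
    · have : cr (a, b - 1 - 2 * ε) (2 - a + 2 * ε, 1 - b) (a, 1 + b + 2 * ε)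
          = (2 * (1 - a) + 2 * ε) * (2 + 4 * ε) := by simp only [cr]; ring
      rw [this]
      have : 0 ≤ 1 - a := by linarith
      positivity
    · have : cr (2 - a + 2 * ε, 1 - b) (a, 1 + b + 2 * ε) (-a - 2 * ε, 1 - b)
          = (2 * b + 2 * ε) * (2 + 4 * ε) := by simp only [cr]; ring
      rw [this]; positivity
    · have : cr (a, 1 + b + 2 * ε) (-a - 2 * ε, 1 - b) (a, b - 1 - 2 * ε)
          = (2 * a + 2 * ε) * (2 + 4 * ε) := by simp only [cr]; ring
      rw [this]; positivity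
  refine ⟨_, _, _, _, hQ, ?_, ?_⟩
  · intro z hz
    obtain ⟨i1, i2, i3, i4⟩ := hq z hz
    have x1 : 0 ≤ z.1 + a := by linarith
    have x2 : 0 ≤ 2 - a - z.1 := by linarith
    have y1 : 0 ≤ z.2 + 1 - b := by linarith
    have y2 : 0 ≤ 1 + b - z.2 := by linarith
    apply quad_mem hQ
    · have : cr (-a - 2 * ε, 1 - b) (a, b - 1 - 2 * ε) z
          = 2 * ((-(-(1 - b) * z.1 - a * z.2)) + ε * (z.2 + 1 - b) + ε * (z.1 + a) + 2 * ε ^ 2) := by
        simp only [cr]; ring
      rw [this]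
      have : 0 ≤ -(-(1 - b) * z.1 - a * z.2) := by linarith
      positivity
    · have : cr (a, b - 1 - 2 * ε) (2 - a + 2 * ε, 1 - b) z
          = 2 * ((-((1 - b) * (z.1 - 1) - (1 - a) * z.2)) + ε * (z.2 + 1 - b)
            + ε * (2 - a - z.1) + 2 * ε ^ 2) := by
        simp only [cr]; ring
      rw [this]
      have : 0 ≤ -((1 - b) * (z.1 - 1) - (1 - a) * z.2) := by linarith
      positivity
    · have : cr (2 - a + 2 * ε, 1 - b) (a, 1 + b + 2 * ε) z
          = 2 * ((-(b * (z.1 - 1) + (1 - a) * (z.2 - 1))) + ε * (1 + b - z.2)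
            + ε * (2 - a - z.1) + 2 * ε ^ 2) := by
        simp only [cr]; ring
      rw [this]
      have : 0 ≤ -(b * (z.1 - 1) + (1 - a) * (z.2 - 1)) := by linarith
      positivity
    · have : cr (a, 1 + b + 2 * ε) (-a - 2 * ε, 1 - b) z
          = 2 * ((-(-b * z.1 + a * (z.2 - 1))) + ε * (1 + b - z.2)
            + ε * (z.1 + a) + 2 * ε ^ 2) := by
        simp only [cr]; ring
      rw [this]
      have : 0 ≤ -(-b * z.1 + a * (z.2 - 1)) := by linarith
      positivity
  · have : (cr (-a - 2 * ε, 1 - b) (a, b - 1 - 2 * ε) (2 - a + 2 * ε, 1 - b)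
        + cr (-a - 2 * ε, 1 - b) (2 - a + 2 * ε, 1 - b) (a, 1 + b + 2 * ε)) / 2
        = 2 * (1 + 2 * ε) ^ 2 := by
      simp only [cr]; ring
    rw [this]
    nlinarith

lemma box_good {K : Set (ℝ × ℝ)} {x0 x1 y0 y1 A : ℝ} (hx : x0 < x1) (hy : y0 < y1)
    (hbox : ∀ z ∈ K, x0 ≤ z.1 ∧ z.1 ≤ x1 ∧ y0 ≤ z.2 ∧ z.2 ≤ y1) (hA : (x1 - x0) * (y1 - y0) < A) :
    Good K A := by
  have hx' : 0 < x1 - x0 := by linarith
  have hy' : 0 < y1 - y0 := by linarith
  have hQ : IsConvexQuad (x0, y0) (x1, y0) (x1, y1) (x0, y1) := by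
    refine ⟨?_, ?_, ?_, ?_⟩
    · have : cr (x0, y0) (x1, y0) (x1, y1) = (x1 - x0) * (y1 - y0) := by simp only [cr]; ring
      rw [this]; positivity
    · have : cr (x1, y0) (x1, y1) (x0, y1) = (x1 - x0) * (y1 - y0) := by simp only [cr]; ring
      rw [this]; positivity
    · have : cr (x1, y1) (x0, y1) (x0, y0) = (x1 - x0) * (y1 - y0) := by simp only [cr]; ring
      rw [this]; positivity
    · have : cr (x0, y1) (x0, y0) (x1, y0) = (x1 - x0) * (y1 - y0) := by simp only [cr]; ring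
      rw [this]; positivity
  refine ⟨_, _, _, _, hQ, ?_, ?_⟩
  · intro z hz
    obtain ⟨b1, b2, b3, b4⟩ := hbox z hz
    apply quad_mem hQ
    · have : cr (x0, y0) (x1, y0) z = (x1 - x0) * (z.2 - y0) := by simp only [cr]; ring
      rw [this]; exact mul_nonneg hx'.le (by linarith)
    · have : cr (x1, y0) (x1, y1) z = (y1 - y0) * (x1 - z.1) := by simp only [cr]; ring
      rw [this]; exact mul_nonneg hy'.le (by linarith)
    · have : cr (x1, y1) (x0, y1) z = (x1 - x0) * (y1 - z.2) := by simp only [cr]; ring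
      rw [this]; exact mul_nonneg hx'.le (by linarith)
    · have : cr (x0, y1) (x0, y0) z = (y1 - y0) * (z.1 - x0) := by simp only [cr]; ring
      rw [this]; exact mul_nonneg hy'.le (by linarith)
  · have : (cr (x0, y0) (x1, y0) (x1, y1) + cr (x0, y0) (x1, y1) (x0, y1)) / 2
        = (x1 - x0) * (y1 - y0) := by simp only [cr]; ring
    rw [this]; exact hA

lemma core_general {K : Set (ℝ × ℝ)} {mx my c σ1 σ2 : ℝ} (hσ1 : σ1 * σ1 = 1) (hσ2 : σ2 * σ2 = 1)
    (hc : 0 < c) (hbox : ∀ z ∈ K, |z.1 - mx| ≤ c ∧ |z.2 - my| ≤ c) {yC xB κ : ℝ} (hκ : 0 < κ)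
    (hyC : |yC - my| ≤ c) (hxB : |xB - mx| ≤ c)
    (hR : ∀ φ, |φ| ≤ κ → ∀ z ∈ K, σ1 * (z.1 - mx) ≤ c + φ * (z.2 - yC))
    (hT : ∀ ψ, |ψ| ≤ κ → ∀ z ∈ K, σ2 * (z.2 - my) ≤ c + ψ * (z.1 - xB)) :
    Good K (4 * c ^ 2) := by
  have a1 : |σ1| = 1 := by
    have : |σ1| * |σ1| = 1 := by rw [← abs_mul, hσ1, abs_one]
    nlinarith [abs_nonneg σ1]
  have a2 : |σ2| = 1 := by
    have : |σ2| * |σ2| = 1 := by rw [← abs_mul, hσ2, abs_one]
    nlinarith [abs_nonneg σ2]
  have h1 : Good (aff σ1 0 0 σ2 (-σ1 * mx) (-σ2 * my) '' K) (4 * c ^ 2) := by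
    apply core hc (yC := σ2 * (yC - my)) (xB := σ1 * (xB - mx)) (κ := κ)
    · rintro w ⟨z, hz, rfl⟩
      obtain ⟨b1, b2⟩ := hbox z hz
      have e1 : (aff σ1 0 0 σ2 (-σ1 * mx) (-σ2 * my) z).1 = σ1 * (z.1 - mx) := by
        simp only [aff]; ring
      have e2 : (aff σ1 0 0 σ2 (-σ1 * mx) (-σ2 * my) z).2 = σ2 * (z.2 - my) := by
        simp only [aff]; ring
      have c1 : |σ1 * (z.1 - mx)| ≤ c := by rw [abs_mul, a1, one_mul]; exact b1
      have c2 : |σ2 * (z.2 - my)| ≤ c := by rw [abs_mul, a2, one_mul]; exact b2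
      rw [e1, e2]
      exact ⟨(abs_le.mp c1).1, (abs_le.mp c1).2, (abs_le.mp c2).1, (abs_le.mp c2).2⟩
    · exact hκ
    · rw [abs_mul, a2, one_mul]; exact hyC
    · rw [abs_mul, a1, one_mul]; exact hxB
    · rintro φ hφ w ⟨z, hz, rfl⟩
      have e1 : (aff σ1 0 0 σ2 (-σ1 * mx) (-σ2 * my) z).1 = σ1 * (z.1 - mx) := by
        simp only [aff]; ring
      have e2 : (aff σ1 0 0 σ2 (-σ1 * mx) (-σ2 * my) z).2 = σ2 * (z.2 - my) := by
        simp only [aff]; ring
      rw [e1, e2]
      have := hR (φ * σ2) (by rw [abs_mul, a2, mul_one]; exact hφ) z hz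
      linarith
    · rintro ψ hψ w ⟨z, hz, rfl⟩
      have e1 : (aff σ1 0 0 σ2 (-σ1 * mx) (-σ2 * my) z).1 = σ1 * (z.1 - mx) := by
        simp only [aff]; ring
      have e2 : (aff σ1 0 0 σ2 (-σ1 * mx) (-σ2 * my) z).2 = σ2 * (z.2 - my) := by
        simp only [aff]; ring
      rw [e1, e2]
      have := hT (ψ * σ1) (by rw [abs_mul, a1, mul_one]; exact hψ) z hz
      linarith
  have hne : σ1 * σ2 - 0 * 0 ≠ 0 := by
    have : |σ1 * σ2| = 1 := by rw [abs_mul, a1, a2, one_mul]
    intro h0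
    have h00 : σ1 * σ2 = 0 := by linarith
    rw [h00, abs_zero] at this
    exact zero_ne_one this
  have h2 := h1.aff σ1 0 0 σ2 mx my hne
  have habs : |σ1 * σ2 - 0 * 0| = 1 := by
    have : σ1 * σ2 - 0 * 0 = σ1 * σ2 := by ring
    rw [this, abs_mul, a1, a2, one_mul]
  rw [habs, one_mul] at h2
  refine h2.mono ?_ le_rfl
  intro z hz
  refine ⟨aff σ1 0 0 σ2 (-σ1 * mx) (-σ2 * my) z, ⟨z, hz, rfl⟩, ?_⟩
  ext
  · simp only [aff]
    have : σ1 * (σ1 * z.1 + 0 * z.2 + -σ1 * mx) + 0 * (0 * z.1 + σ2 * z.2 + -σ2 * my) + mx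
        = (σ1 * σ1) * (z.1 - mx) + mx := by ring
    rw [this, hσ1]; ring
  · simp only [aff]
    have : 0 * (σ1 * z.1 + 0 * z.2 + -σ1 * mx) + σ2 * (0 * z.1 + σ2 * z.2 + -σ2 * my) + my
        = (σ2 * σ2) * (z.2 - my) + my := by ring
    rw [this, hσ2]; ring

lemma mul_bound {φ u r : ℝ} (h1 : |φ| ≤ r / 2) (h2 : |u| ≤ 2) : -r ≤ φ * u := by
  have : |φ * u| ≤ r := by
    rw [abs_mul]
    calc |φ| * |u| ≤ (r / 2) * 2 := mul_le_mul h1 h2 (abs_nonneg _) ((abs_nonneg _).trans h1)
      _ = r := by ring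
  linarith [neg_abs_le (φ * u)]

set_option maxHeartbeats 4000000 in
theorem norm_good {K : Set (ℝ × ℝ)} (hKc : IsCompact K) (hK : Convex ℝ K)
    (h00 : ((0, 0) : ℝ × ℝ) ∈ K) (h10 : ((1, 0) : ℝ × ℝ) ∈ K) (h01 : ((0, 1) : ℝ × ℝ) ∈ K)
    (h11 : ((1, 1) : ℝ × ℝ) ∈ K)
    (hmax : ∀ z1 ∈ K, ∀ z2 ∈ K, ∀ z3 ∈ K, ∀ z4 ∈ K, z1 + z3 = z2 + z4 → cr z1 z2 z4 ≤ 1) :
    Good K (√2 * (volume K).toReal) ∧ ∀ z ∈ K, -1 ≤ z.1 ∧ z.1 ≤ 2 ∧ -1 ≤ z.2 ∧ z.2 ≤ 2 := by
  have hsq := square_subset hK h00 h10 h01 h11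
  have hint : (interior K).Nonempty := by
    refine ⟨(1 / 2, 1 / 2), ?_⟩
    have h1 : (Ioo 0 1 ×ˢ Ioo 0 1 : Set (ℝ × ℝ)) ⊆ interior K := by
      apply interior_maximal _ (isOpen_Ioo.prod isOpen_Ioo)
      exact (prod_mono Ioo_subset_Icc_self Ioo_subset_Icc_self).trans hsq
    apply h1
    constructor <;> constructor <;> norm_num
  obtain ⟨a, b, ha0, ha1, hb0, hb1, hq⟩ := balanced hK h00 h10 h01 h11 hint hmax
  have hrange : ∀ z ∈ K, -1 ≤ z.1 ∧ z.1 ≤ 2 ∧ -1 ≤ z.2 ∧ z.2 ≤ 2 := by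
    intro z hz
    obtain ⟨i1, i2, i3, i4⟩ := hq z hz
    refine ⟨by linarith, by linarith, by linarith, by linarith⟩
  refine ⟨?_, hrange⟩
  -- side facts
  have sideR : ∀ z ∈ K, 1 < z.1 → 0 ≤ z.2 ∧ z.2 ≤ 1 := by
    intro z hz hx
    obtain ⟨i1, i2, i3, i4⟩ := hq z hz
    constructor
    · by_contra hh; push Not at hh
      have : 0 < 1 - b := by linarith
      nlinarith [mul_pos this (sub_pos.mpr hx), mul_nonneg (sub_nonneg.mpr ha1) (neg_pos.mpr hh).le]
    · by_contra hh; push Not at hh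
      have : 0 < b := by linarith
      nlinarith [mul_pos this (sub_pos.mpr hx), mul_nonneg (sub_nonneg.mpr ha1) (sub_pos.mpr hh).le]
  have sideL : ∀ z ∈ K, z.1 < 0 → 0 ≤ z.2 ∧ z.2 ≤ 1 := by
    intro z hz hx
    obtain ⟨i1, i2, i3, i4⟩ := hq z hz
    constructor
    · by_contra hh; push Not at hh
      have : 0 < 1 - b := by linarith
      nlinarith [mul_pos this (neg_pos.mpr hx), mul_nonneg ha0 (neg_pos.mpr hh).le]
    · by_contra hh; push Not at hh
      have : 0 < b := by linarith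
      nlinarith [mul_pos this (neg_pos.mpr hx), mul_nonneg ha0 (sub_pos.mpr hh).le]
  have sideU : ∀ z ∈ K, 1 < z.2 → 0 ≤ z.1 ∧ z.1 ≤ 1 := by
    intro z hz hy
    constructor
    · by_contra hh; push Not at hh
      linarith [(sideL z hz hh).2]
    · by_contra hh; push Not at hh
      linarith [(sideR z hz hh).2]
  have sideD : ∀ z ∈ K, z.2 < 0 → 0 ≤ z.1 ∧ z.1 ≤ 1 := by
    intro z hz hy
    constructor
    · by_contra hh; push Not at hh
      linarith [(sideL z hz hh).1]
    · by_contra hh; push Not at hh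
      linarith [(sideR z hz hh).1]
  have exC : ∃ T ∈ K, (∀ z ∈ K, z.1 ≤ T.1) ∧ 0 ≤ T.2 ∧ T.2 ≤ 1 := by
    obtain ⟨T, hT, hTm⟩ := hKc.exists_isMaxOn ⟨_, h00⟩ continuous_fst.continuousOn
    rcases lt_or_ge 1 T.1 with h | h
    · exact ⟨T, hT, fun z hz => hTm hz, sideR T hT h⟩
    · exact ⟨(1, 0), h10, fun z hz => (show z.1 ≤ T.1 from hTm hz).trans h, le_refl _, zero_le_one⟩
  have exA : ∃ T ∈ K, (∀ z ∈ K, T.1 ≤ z.1) ∧ 0 ≤ T.2 ∧ T.2 ≤ 1 := by
    obtain ⟨T, hT, hTm⟩ := hKc.exists_isMinOn ⟨_, h00⟩ continuous_fst.continuousOn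
    rcases lt_or_ge T.1 0 with h | h
    · exact ⟨T, hT, fun z hz => hTm hz, sideL T hT h⟩
    · exact ⟨(0, 0), h00, fun z hz => h.trans (show T.1 ≤ z.1 from hTm hz), le_refl _, zero_le_one⟩
  have exB : ∃ T ∈ K, (∀ z ∈ K, z.2 ≤ T.2) ∧ 0 ≤ T.1 ∧ T.1 ≤ 1 := by
    obtain ⟨T, hT, hTm⟩ := hKc.exists_isMaxOn ⟨_, h00⟩ continuous_snd.continuousOn
    rcases lt_or_ge 1 T.2 with h | h
    · exact ⟨T, hT, fun z hz => hTm hz, sideU T hT h⟩
    · exact ⟨(0, 1), h01, fun z hz => (show z.2 ≤ T.2 from hTm hz).trans h, le_refl _, zero_le_one⟩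
  have exD : ∃ T ∈ K, (∀ z ∈ K, T.2 ≤ z.2) ∧ 0 ≤ T.1 ∧ T.1 ≤ 1 := by
    obtain ⟨T, hT, hTm⟩ := hKc.exists_isMinOn ⟨_, h00⟩ continuous_snd.continuousOn
    rcases lt_or_ge T.2 0 with h | h
    · exact ⟨T, hT, fun z hz => hTm hz, sideD T hT h⟩
    · exact ⟨(0, 0), h00, fun z hz => h.trans (show T.2 ≤ z.2 from hTm hz), le_refl _, zero_le_one⟩
  obtain ⟨TC, mC, maxC, C0, C1⟩ := exC
  obtain ⟨TA, mA, maxA, A0, A1⟩ := exA
  obtain ⟨TB, mB, maxB, B0, B1⟩ := exB
  obtain ⟨TD, mD, maxD, D0, D1⟩ := exD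
  have hA : TA.1 ≤ 0 := maxA _ h00
  have hB : 1 ≤ TB.2 := maxB _ h01
  have hC : 1 ≤ TC.1 := maxC _ h10
  have hD : TD.2 ≤ 0 := maxD _ h00
  have hCCK := CC_subset hK h00 h10 h01 h11 mA mB mC mD
  have hvolCC := vol_CC hA hB hC hD ha0 ha1 hb0 hb1 (fun z hz => hq z (hCCK hz))
  have hfin : volume K ≠ ⊤ := hKc.measure_lt_top.ne
  set v := (volume K).toReal with hv
  have hKv : volume K = ENNReal.ofReal v := (ENNReal.ofReal_toReal hfin).symm
  set X := TC.1 - TA.1 with hX
  set Y := TB.2 - TD.2 with hY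
  have hXY : 1 + ((TC.1 - 1) + (-TA.1) + (TB.2 - 1) + (-TD.2)) / 2 = (X + Y) / 2 := by
    rw [hX, hY]; ring
  rw [hXY] at hvolCC
  have hX1 : 1 ≤ X := by linarith
  have hY1 : 1 ≤ Y := by linarith
  have hvle : (X + Y) / 2 ≤ v := by
    have := hvolCC.trans (measure_mono hCCK)
    rwa [ENNReal.ofReal_le_iff_le_toReal hfin] at this
  have hvpos : 0 < v := by linarith
  have h2 : √2 * √2 = 2 := Real.mul_self_sqrt (by norm_num)
  have h2pos : 0 < √2 := by positivity
  have h2le : √2 ≤ 2 := by nlinarith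
  have h21 : 1 < √2 := by nlinarith
  rcases lt_or_ge √2 v with hcase | hcase
  · exact case_big ha0 ha1 hb0 hb1 hq (by nlinarith)
  · by_cases hbox : X * Y < √2 * v
    · refine box_good (x0 := TA.1) (x1 := TC.1) (y0 := TD.2) (y1 := TB.2) (by linarith)
        (by linarith) (fun z hz => ⟨maxA z hz, maxC z hz, maxD z hz, maxB z hz⟩) hbox
    · push Not at hbox
      have k1 : X * Y ≤ ((X + Y) / 2) ^ 2 := by nlinarith [sq_nonneg (X - Y)]
      have k2 : ((X + Y) / 2) ^ 2 ≤ v ^ 2 := by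
        apply pow_le_pow_left₀ (by linarith) hvle
      have k3 : √2 ≤ v := by
        have : √2 * v ≤ v * v := by nlinarith
        exact le_of_mul_le_mul_right this hvpos
      have hveq : v = √2 := le_antisymm hcase k3
      have k4 : (X - Y) ^ 2 ≤ 0 := by
        have e1 : (X + Y) ≤ 2 * √2 := by linarith
        have e2 : (X + Y) ^ 2 ≤ 8 := by nlinarith
        have e3 : 2 ≤ X * Y := by rw [hveq] at hbox; linarith
        nlinarith
      have k5 : X = Y := by
        have : X - Y = 0 := by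
          have := le_antisymm k4 (sq_nonneg _)
          exact pow_eq_zero_iff (two_ne_zero) |>.mp this
        linarith
      have k6 : X = √2 := by
        apply le_antisymm
        · linarith
        · have : 2 ≤ X * X := by rw [hveq, ← k5] at hbox; linarith
          nlinarith
      have k7 : Y = √2 := by rw [← k5]; exact k6
      have hKC : K ⊆ CC TA TB TC TD := by
        apply subset_of_volume hK hint (CC_closed _ _ _ _) hCCK _ hfin
        rw [hKv]
        refine le_trans (le_of_eq ?_) hvolCC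
        congr 1
        rw [k6, k7, hveq]; ring
      have hdx : ∀ z ∈ K, ∀ w ∈ K, |z.1 - w.1| ≤ 2 := by
        intro z hz w hw
        rw [abs_le]
        constructor <;> linarith [maxA z hz, maxC z hz, maxA w hw, maxC w hw]
      have hdy : ∀ z ∈ K, ∀ w ∈ K, |z.2 - w.2| ≤ 2 := by
        intro z hz w hw
        rw [abs_le]
        constructor <;> linarith [maxB z hz, maxD z hz, maxB w hw, maxD w hw]
      have rotR : ∀ φ, |φ| ≤ (TC.1 - 1) / 2 → ∀ z ∈ K, z.1 ≤ TC.1 + φ * (z.2 - TC.2) := by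
        intro φ hφ z hz
        have hp : ∀ p ∈ K, p.1 ≤ 1 → 1 * p.1 + (-φ) * p.2 ≤ TC.1 - φ * TC.2 := by
          intro p hp hp1
          have := mul_bound hφ (hdy p hp TC mC)
          linarith
        have := CC_halfplane (A := 1) (B := -φ) (c := TC.1 - φ * TC.2) (TA := TA) (TB := TB)
          (TC := TC) (TD := TD)
          (by simpa using hp _ h00 (by norm_num)) (by simpa using hp _ h10 (by norm_num))
          (by simpa using hp _ h01 (by norm_num)) (by simpa using hp _ h11 (by norm_num))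
          (hp _ mA (by linarith)) (hp _ mB B1) (by linarith) (hp _ mD D1) z (hKC hz)
        linarith
      have rotL : ∀ φ, |φ| ≤ (-TA.1) / 2 → ∀ z ∈ K, -z.1 ≤ -TA.1 + φ * (z.2 - TA.2) := by
        intro φ hφ z hz
        have hp : ∀ p ∈ K, 0 ≤ p.1 → (-1) * p.1 + (-φ) * p.2 ≤ -TA.1 - φ * TA.2 := by
          intro p hp hp1
          have := mul_bound hφ (hdy p hp TA mA)
          linarith
        have := CC_halfplane (A := -1) (B := -φ) (c := -TA.1 - φ * TA.2) (TA := TA) (TB := TB)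
          (TC := TC) (TD := TD)
          (by simpa using hp _ h00 (by norm_num)) (by simpa using hp _ h10 (by norm_num))
          (by simpa using hp _ h01 (by norm_num)) (by simpa using hp _ h11 (by norm_num))
          (by linarith) (hp _ mB B0) (hp _ mC (by linarith)) (hp _ mD D0) z (hKC hz)
        linarith
      have rotU : ∀ ψ, |ψ| ≤ (TB.2 - 1) / 2 → ∀ z ∈ K, z.2 ≤ TB.2 + ψ * (z.1 - TB.1) := by
        intro ψ hψ z hz
        have hp : ∀ p ∈ K, p.2 ≤ 1 → (-ψ) * p.1 + 1 * p.2 ≤ TB.2 - ψ * TB.1 := by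
          intro p hp hp1
          have := mul_bound hψ (hdx p hp TB mB)
          linarith
        have := CC_halfplane (A := -ψ) (B := 1) (c := TB.2 - ψ * TB.1) (TA := TA) (TB := TB)
          (TC := TC) (TD := TD)
          (by simpa using hp _ h00 (by norm_num)) (by simpa using hp _ h10 (by norm_num))
          (by simpa using hp _ h01 (by norm_num)) (by simpa using hp _ h11 (by norm_num))
          (hp _ mA A1) (by linarith) (hp _ mC C1) (hp _ mD (by linarith)) z (hKC hz)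
        linarith
      have rotD : ∀ ψ, |ψ| ≤ (-TD.2) / 2 → ∀ z ∈ K, -z.2 ≤ -TD.2 + ψ * (z.1 - TD.1) := by
        intro ψ hψ z hz
        have hp : ∀ p ∈ K, 0 ≤ p.2 → (-ψ) * p.1 + (-1) * p.2 ≤ -TD.2 - ψ * TD.1 := by
          intro p hp hp1
          have := mul_bound hψ (hdx p hp TD mD)
          linarith
        have := CC_halfplane (A := -ψ) (B := -1) (c := -TD.2 - ψ * TD.1) (TA := TA) (TB := TB)
          (TC := TC) (TD := TD)
          (by simpa using hp _ h00 (by norm_num)) (by simpa using hp _ h10 (by norm_num))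
          (by simpa using hp _ h01 (by norm_num)) (by simpa using hp _ h11 (by norm_num))
          (hp _ mA A0) (hp _ mB (by linarith)) (hp _ mC C0) (by linarith) z (hKC hz)
        linarith
      have hfinal : 4 * (√2 / 2) ^ 2 = √2 * v := by rw [hveq]; ring
      rw [← hfinal]
      set mx := (TC.1 + TA.1) / 2 with hmx
      set my := (TB.2 + TD.2) / 2 with hmy
      have bx : ∀ z ∈ K, |z.1 - mx| ≤ √2 / 2 := by
        intro z hz; rw [abs_le]
        constructor <;> linarith [maxA z hz, maxC z hz]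
      have by' : ∀ z ∈ K, |z.2 - my| ≤ √2 / 2 := by
        intro z hz; rw [abs_le]
        constructor <;> linarith [maxB z hz, maxD z hz]
      have hcpos : 0 < √2 / 2 := by positivity
      have hxx : 1 < TC.1 ∨ TA.1 < 0 := by
        by_contra hh; push Not at hh; linarith [hh.1, hh.2]
      have hyy : 1 < TB.2 ∨ TD.2 < 0 := by
        by_contra hh; push Not at hh; linarith [hh.1, hh.2]
      rcases hxx with hxx | hxx <;> rcases hyy with hyy | hyy
      · refine core_general (mx := mx) (my := my) (σ1 := 1) (σ2 := 1) (by norm_num) (by norm_num)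
          hcpos (fun z hz => ⟨bx z hz, by' z hz⟩) (yC := TC.2) (xB := TB.1)
          (κ := min ((TC.1 - 1) / 2) ((TB.2 - 1) / 2)) (lt_min (by linarith) (by linarith))
          (by' TC mC) (bx TB mB) ?_ ?_
        · intro φ hφ z hz
          have := rotR φ (hφ.trans (min_le_left _ _)) z hz
          linarith
        · intro φ hφ z hz
          have := rotU φ (hφ.trans (min_le_right _ _)) z hz
          linarith
      · refine core_general (mx := mx) (my := my) (σ1 := 1) (σ2 := -1) (by norm_num) (by norm_num)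
          hcpos (fun z hz => ⟨bx z hz, by' z hz⟩) (yC := TC.2) (xB := TD.1)
          (κ := min ((TC.1 - 1) / 2) ((-TD.2) / 2)) (lt_min (by linarith) (by linarith))
          (by' TC mC) (bx TD mD) ?_ ?_
        · intro φ hφ z hz
          have := rotR φ (hφ.trans (min_le_left _ _)) z hz
          linarith
        · intro φ hφ z hz
          have := rotD φ (hφ.trans (min_le_right _ _)) z hz
          linarith
      · refine core_general (mx := mx) (my := my) (σ1 := -1) (σ2 := 1) (by norm_num) (by norm_num)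
          hcpos (fun z hz => ⟨bx z hz, by' z hz⟩) (yC := TA.2) (xB := TB.1)
          (κ := min ((-TA.1) / 2) ((TB.2 - 1) / 2)) (lt_min (by linarith) (by linarith))
          (by' TA mA) (bx TB mB) ?_ ?_
        · intro φ hφ z hz
          have := rotL φ (hφ.trans (min_le_left _ _)) z hz
          linarith
        · intro φ hφ z hz
          have := rotU φ (hφ.trans (min_le_right _ _)) z hz
          linarith
      · refine core_general (mx := mx) (my := my) (σ1 := -1) (σ2 := -1) (by norm_num) (by norm_num)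
          hcpos (fun z hz => ⟨bx z hz, by' z hz⟩) (yC := TA.2) (xB := TD.1)
          (κ := min ((-TA.1) / 2) ((-TD.2) / 2)) (lt_min (by linarith) (by linarith))
          (by' TA mA) (bx TD mD) ?_ ?_
        · intro φ hφ z hz
          have := rotL φ (hφ.trans (min_le_left _ _)) z hz
          linarith
        · intro φ hφ z hz
          have := rotD φ (hφ.trans (min_le_right _ _)) z hz
          linarith




lemma good_of_aff {K : Set (ℝ × ℝ)} {A α β γ δ s t : ℝ} (hd : α * δ - β * γ ≠ 0)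
    (h : Good (aff α β γ δ s t '' K) (|α * δ - β * γ| * A)) : Good K A := by
  set Δ := α * δ - β * γ with hΔ
  have hdet : (δ / Δ) * (α / Δ) - (-β / Δ) * (-γ / Δ) = 1 / Δ := by
    field_simp
    rw [hΔ]; ring
  have hne : (δ / Δ) * (α / Δ) - (-β / Δ) * (-γ / Δ) ≠ 0 := by
    rw [hdet]; exact one_div_ne_zero hd
  have h2 := h.aff (δ / Δ) (-β / Δ) (-γ / Δ) (α / Δ) (-(δ * s - β * t) / Δ)
    (-(-γ * s + α * t) / Δ) hne
  rw [hdet] at h2
  refine h2.mono ?_ ?_
  · intro z hz
    refine ⟨aff α β γ δ s t z, ⟨z, hz, rfl⟩, ?_⟩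
    ext
    · simp only [aff]
      field_simp
      rw [hΔ]; ring
    · simp only [aff]
      field_simp
      rw [hΔ]; ring
  · rw [abs_div, abs_one]
    have : |Δ| ≠ 0 := abs_ne_zero.mpr hd
    apply le_of_eq
    field_simp

lemma convex_aff {K : Set (ℝ × ℝ)} (hK : Convex ℝ K) (α β γ δ s t : ℝ) :
    Convex ℝ (aff α β γ δ s t '' K) := by
  rw [aff_coe]
  exact hK.affine_image _

theorem normalise {K : Set (ℝ × ℝ)} (hKc : IsCompact K) (hK : Convex ℝ K)
    (hint : (interior K).Nonempty) : ∃ α β γ δ s t : ℝ, α * δ - β * γ ≠ 0 ∧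
      ((0, 0) : ℝ × ℝ) ∈ aff α β γ δ s t '' K ∧ ((1, 0) : ℝ × ℝ) ∈ aff α β γ δ s t '' K ∧
      ((0, 1) : ℝ × ℝ) ∈ aff α β γ δ s t '' K ∧ ((1, 1) : ℝ × ℝ) ∈ aff α β γ δ s t '' K ∧
      ∀ z1 ∈ aff α β γ δ s t '' K, ∀ z2 ∈ aff α β γ δ s t '' K, ∀ z3 ∈ aff α β γ δ s t '' K,
        ∀ z4 ∈ aff α β γ δ s t '' K, z1 + z3 = z2 + z4 → cr z1 z2 z4 ≤ 1 := by
  -- compact set of inscribed parallelograms
  set P : Set ((ℝ × ℝ) × (ℝ × ℝ) × (ℝ × ℝ) × (ℝ × ℝ)) :=
    (K ×ˢ K ×ˢ K ×ˢ K) ∩ {z | z.1 + z.2.2.1 = z.2.1 + z.2.2.2} with hP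
  have hPc : IsCompact P := by
    apply (hKc.prod (hKc.prod (hKc.prod hKc))).inter_right
    apply isClosed_eq <;> fun_prop
  obtain ⟨k, hk⟩ := hint
  have hkK : k ∈ K := interior_subset hk
  obtain ⟨ε, hε, hball⟩ := Metric.mem_nhds_iff.mp (mem_interior_iff_mem_nhds.mp hk)
  have hPne : P.Nonempty := ⟨(k, k, k, k), ⟨hkK, hkK, hkK, hkK⟩, rfl⟩
  have hcont : Continuous (fun z : (ℝ × ℝ) × (ℝ × ℝ) × (ℝ × ℝ) × (ℝ × ℝ) =>
      cr z.1 z.2.1 z.2.2.2) := by
    unfold cr; fun_prop
  obtain ⟨⟨e1, e2, e3, e4⟩, ⟨⟨m1, m2, m3, m4⟩, he⟩, hmax⟩ := hPc.exists_isMaxOn hPne hcont.continuousOn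
  simp only [mem_setOf_eq] at he
  have hmax' : ∀ w1 ∈ K, ∀ w2 ∈ K, ∀ w3 ∈ K, ∀ w4 ∈ K, w1 + w3 = w2 + w4 →
      cr w1 w2 w4 ≤ cr e1 e2 e4 := by
    intro w1 h1 w2 h2 w3 h3 w4 h4 hw
    exact hmax (a := (w1, w2, w3, w4)) ⟨⟨h1, h2, h3, h4⟩, hw⟩
  set M := cr e1 e2 e4 with hM
  have hMpos : 0 < M := by
    have hmem : ∀ x y : ℝ, |x| ≤ ε / 2 → |y| ≤ ε / 2 → (k.1 + x, k.2 + y) ∈ K := by
      intro x y hx hy
      apply hball
      rw [Metric.mem_ball, Prod.dist_eq, max_lt_iff, Real.dist_eq, Real.dist_eq]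
      constructor
      · simp; linarith
      · simp; linarith
    have z0 : |(0:ℝ)| ≤ ε / 2 := by simp; linarith
    have z1 : |ε / 2| ≤ ε / 2 := by rw [abs_of_pos (by linarith)]
    have := hmax' _ (hmem 0 0 z0 z0) _ (hmem (ε / 2) 0 z1 z0) _ (hmem (ε / 2) (ε / 2) z1 z1) _
      (hmem 0 (ε / 2) z0 z1) (by ext <;> simp <;> ring)
    have e : cr (k.1 + 0, k.2 + 0) (k.1 + ε / 2, k.2 + 0) (k.1 + 0, k.2 + ε / 2) = (ε / 2) ^ 2 := by
      simp only [cr]; ring
    rw [e] at this
    have : 0 < (ε / 2) ^ 2 := by positivity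
    linarith
  have hMne : M ≠ 0 := hMpos.ne'
  have hx : e3.1 = e2.1 + e4.1 - e1.1 := by
    have := congrArg Prod.fst he; simp at this; linarith
  have hy : e3.2 = e2.2 + e4.2 - e1.2 := by
    have := congrArg Prod.snd he; simp at this; linarith
  have hMexp : M = (e2.1 - e1.1) * (e4.2 - e1.2) - (e2.2 - e1.2) * (e4.1 - e1.1) := rfl
  set α := (e4.2 - e1.2) / M with hα
  set β := -(e4.1 - e1.1) / M with hβ
  set γ := -(e2.2 - e1.2) / M with hγ
  set δ := (e2.1 - e1.1) / M with hδ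
  set s := -(e1.1 * (e4.2 - e1.2) - e1.2 * (e4.1 - e1.1)) / M with hs
  set t := -((e2.1 - e1.1) * e1.2 - (e2.2 - e1.2) * e1.1) / M with ht
  have hdet : α * δ - β * γ = 1 / M := by
    rw [hα, hβ, hγ, hδ]
    field_simp
    rw [hMexp]; ring
  have hdne : α * δ - β * γ ≠ 0 := by rw [hdet]; exact one_div_ne_zero hMne
  refine ⟨α, β, γ, δ, s, t, hdne, ⟨e1, m1, ?_⟩, ⟨e2, m2, ?_⟩, ⟨e4, m4, ?_⟩, ⟨e3, m3, ?_⟩, ?_⟩
  · ext
    · simp only [aff, hα, hβ, hs]; field_simp; ring
    · simp only [aff, hγ, hδ, ht]; field_simp; ring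
  · ext
    · simp only [aff, hα, hβ, hs]; field_simp; rw [hMexp]; ring
    · simp only [aff, hγ, hδ, ht]; field_simp; ring
  · ext
    · simp only [aff, hα, hβ, hs]; field_simp; ring
    · simp only [aff, hγ, hδ, ht]; field_simp; rw [hMexp]; ring
  · ext
    · simp only [aff, hα, hβ, hs]; rw [hx, hy]; field_simp; rw [hMexp]; ring
    · simp only [aff, hγ, hδ, ht]; rw [hx, hy]; field_simp; rw [hMexp]; ring
  · rintro z1 ⟨w1, h1, rfl⟩ z2 ⟨w2, h2, rfl⟩ z3 ⟨w3, h3, rfl⟩ z4 ⟨w4, h4, rfl⟩ hz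
    rw [cr_aff, hdet]
    have hz1 : α * (w1.1 + w3.1 - w2.1 - w4.1) + β * (w1.2 + w3.2 - w2.2 - w4.2) = 0 := by
      have := congrArg Prod.fst hz; simp [aff] at this; linarith
    have hz2 : γ * (w1.1 + w3.1 - w2.1 - w4.1) + δ * (w1.2 + w3.2 - w2.2 - w4.2) = 0 := by
      have := congrArg Prod.snd hz; simp [aff] at this; linarith
    have hX : w1.1 + w3.1 - w2.1 - w4.1 = 0 := by
      have : (α * δ - β * γ) * (w1.1 + w3.1 - w2.1 - w4.1) = 0 := by linear_combination δ * hz1 - β * hz2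
      exact (mul_eq_zero.mp this).resolve_left hdne
    have hY : w1.2 + w3.2 - w2.2 - w4.2 = 0 := by
      have : (α * δ - β * γ) * (w1.2 + w3.2 - w2.2 - w4.2) = 0 := by linear_combination α * hz2 - γ * hz1
      exact (mul_eq_zero.mp this).resolve_left hdne
    have := hmax' w1 h1 w2 h2 w3 h3 w4 h4 (by
      ext
      · simp; linarith
      · simp; linarith)
    rw [one_div, inv_mul_le_iff₀ hMpos, mul_one]
    exact this

/-- Question 2 for convex bodies, in ratio form. -/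
theorem good_body {K : Set (ℝ × ℝ)} (hKc : IsCompact K) (hK : Convex ℝ K)
    (hint : (interior K).Nonempty) : Good K (√2 * (volume K).toReal) := by
  obtain ⟨α, β, γ, δ, s, t, hd, h00, h10, h01, h11, hmax⟩ := normalise hKc hK hint
  have := (norm_good (hKc.image (aff_continuous α β γ δ s t)) (convex_aff hK _ _ _ _ _ _)
    h00 h10 h01 h11 hmax).1
  rw [volume_aff, ENNReal.toReal_mul, ENNReal.toReal_ofReal (abs_nonneg _)] at this
  apply good_of_aff hd
  have e : √2 * (|α * δ - β * γ| * (volume K).toReal) = |α * δ - β * γ| * (√2 * (volume K).toReal) := by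
    ring
  rw [e] at this
  exact this

lemma bounded_of_volume {K : Set (ℝ × ℝ)} (hK : Convex ℝ K) (hint : (interior K).Nonempty)
    (hfin : volume K ≠ ⊤) : Bornology.IsBounded K := by
  obtain ⟨k, hk⟩ := hint
  obtain ⟨ε, hε, hball⟩ := Metric.mem_nhds_iff.mp (mem_interior_iff_mem_nhds.mp hk)
  have hmem : ∀ x y : ℝ, |x| ≤ ε / 2 → |y| ≤ ε / 2 → (k.1 + x, k.2 + y) ∈ K := by
    intro x y hx hy
    apply hball
    rw [Metric.mem_ball, Prod.dist_eq, max_lt_iff, Real.dist_eq, Real.dist_eq]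
    constructor
    · simp; linarith
    · simp; linarith
  have z0 : |(0:ℝ)| ≤ ε / 2 := by simp; linarith
  have z1 : |ε / 2| ≤ ε / 2 := by rw [abs_of_pos (by linarith)]
  have z2 : |-(ε / 2)| ≤ ε / 2 := by rw [abs_neg, abs_of_pos (by linarith)]
  have htri : ∀ p ∈ K, ∀ q ∈ K, ∀ r ∈ K, |cr p q r| / 2 ≤ (volume K).toReal := by
    intro p hp q hq r hr
    have hs : convexHull ℝ ({p, q, r} : Set (ℝ × ℝ)) ⊆ K := by
      apply convexHull_min _ hK
      intro x hx
      simp only [mem_insert_iff, mem_singleton_iff] at hx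
      rcases hx with rfl | rfl | rfl <;> assumption
    have := measure_mono (μ := (volume : Measure (ℝ × ℝ))) hs
    rw [vol_tri, ENNReal.ofReal_le_iff_le_toReal hfin] at this
    exact this
  set V := (volume K).toReal with hV
  rw [Metric.isBounded_iff_subset_closedBall k]
  refine ⟨2 * V / ε, ?_⟩
  intro z hz
  rw [Metric.mem_closedBall, Prod.dist_eq, max_le_iff, Real.dist_eq, Real.dist_eq]
  constructor
  · have := htri _ (hmem 0 (ε / 2) z0 z1) _ (hmem 0 (-(ε / 2)) z0 z2) z hz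
    have e : cr (k.1 + 0, k.2 + ε / 2) (k.1 + 0, k.2 + -(ε / 2)) z = ε * (z.1 - k.1) := by
      simp only [cr]; ring
    rw [e, abs_mul, abs_of_pos hε] at this
    rw [le_div_iff₀ hε]; linarith
  · have := htri _ (hmem (ε / 2) 0 z1 z0) _ (hmem (-(ε / 2)) 0 z2 z0) z hz
    have e : cr (k.1 + ε / 2, k.2 + 0) (k.1 + -(ε / 2), k.2 + 0) z = -(ε * (z.2 - k.2)) := by
      simp only [cr]; ring
    rw [e, abs_neg, abs_mul, abs_of_pos hε] at this
    rw [le_div_iff₀ hε]; linarith

lemma closure_facts {K : Set (ℝ × ℝ)} (hK : Convex ℝ K) (hvol : volume K = 1) :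
    IsCompact (closure K) ∧ (interior (closure K)).Nonempty ∧ volume (closure K) = 1 := by
  have hfr : volume (frontier K) = 0 := hK.addHaar_frontier volume
  have hint : (interior K).Nonempty := by
    by_contra hne
    rw [not_nonempty_iff_eq_empty] at hne
    have : K ⊆ frontier K := by
      intro z hz
      rw [frontier, hne, diff_empty]
      exact subset_closure hz
    have h2 := measure_mono (μ := (volume : Measure (ℝ × ℝ))) this
    rw [hfr, hvol] at h2
    exact absurd h2 (by simp)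
  have hb := bounded_of_volume hK hint (by rw [hvol]; exact ENNReal.one_ne_top)
  refine ⟨hb.isCompact_closure, ?_, ?_⟩
  · exact hint.mono (interior_mono subset_closure)
  · apply le_antisymm
    · have : closure K ⊆ K ∪ frontier K := by
        intro z hz
        by_cases h : z ∈ K
        · left; exact h
        · right; exact ⟨hz, fun h' => h (interior_subset h')⟩
      calc volume (closure K) ≤ volume (K ∪ frontier K) := measure_mono this
        _ ≤ volume K + volume (frontier K) := measure_union_le _ _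
        _ = 1 := by rw [hfr, hvol, add_zero]
    · rw [← hvol]; exact measure_mono subset_closure



open TopologicalSpace

/-- the unit square -/
def U0 : Set (ℝ × ℝ) := Icc 0 1 ×ˢ Icc 0 1

lemma dilate {K0 : Set (ℝ × ℝ)} (hK0 : Convex ℝ K0) (hU : U0 ⊆ K0) {η : ℝ} (hη : 0 < η)
    {z k : ℝ × ℝ} (hk : k ∈ K0) (hd : dist z k < η) :
    z ∈ aff (1 + 2 * η) 0 0 (1 + 2 * η) (-η) (-η) '' K0 := by
  have h1 : 0 < 1 + 2 * η := by linarith
  rw [Prod.dist_eq, max_lt_iff, Real.dist_eq, Real.dist_eq] at hd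
  have a1 := abs_lt.mp hd.1
  have a2 := abs_lt.mp hd.2
  set u : ℝ × ℝ := ((z.1 - k.1 + η) / (2 * η), (z.2 - k.2 + η) / (2 * η)) with hu
  have huU : u ∈ U0 := by
    have h2 : 0 < 2 * η := by linarith
    refine ⟨⟨?_, ?_⟩, ⟨?_, ?_⟩⟩
    · exact div_nonneg (by linarith) h2.le
    · rw [div_le_one h2]; linarith
    · exact div_nonneg (by linarith) h2.le
    · rw [div_le_one h2]; linarith
  have hw := hK0 hk (hU huU) (a := 1 / (1 + 2 * η)) (b := 2 * η / (1 + 2 * η)) (by positivity)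
    (by positivity) (by field_simp)
  refine ⟨_, hw, ?_⟩
  ext
  · simp only [aff, hu, Prod.fst_add, Prod.smul_fst, smul_eq_mul]
    field_simp; ring
  · simp only [aff, hu, Prod.snd_add, Prod.smul_snd, smul_eq_mul]
    field_simp; ring

lemma vol_U0 : volume U0 = 1 := by
  rw [U0, Measure.volume_eq_prod, Measure.prod_prod]; simp

lemma int_of_U0 {K : Set (ℝ × ℝ)} (hU : U0 ⊆ K) : (interior K).Nonempty := by
  refine ⟨(1 / 2, 1 / 2), ?_⟩
  have h1 : (Ioo 0 1 ×ˢ Ioo 0 1 : Set (ℝ × ℝ)) ⊆ interior K := by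
    apply interior_maximal _ (isOpen_Ioo.prod isOpen_Ioo)
    exact (Set.prod_mono Ioo_subset_Icc_self Ioo_subset_Icc_self).trans hU
  apply h1
  constructor <;> constructor <;> norm_num

lemma local_uniform {K0 : Set (ℝ × ℝ)} (hc0 : IsCompact K0) (hK0 : Convex ℝ K0) (hU : U0 ⊆ K0) :
    ∃ η > 0, ∃ c < √2, ∀ K : Set (ℝ × ℝ), IsCompact K → Convex ℝ K → U0 ⊆ K →
      (∀ z ∈ K, ∃ k ∈ K0, dist z k < η) → (∀ z ∈ K0, ∃ k ∈ K, dist z k < η) →
      Good K (c * (volume K).toReal) := by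
  obtain ⟨a, b, c, d, hq, hsub, hlt⟩ := good_body hc0 hK0 (int_of_U0 hU)
  set A0 := (cr a b c + cr a c d) / 2 with hA0
  set v0 := (volume K0).toReal with hv0
  have hfin0 : volume K0 ≠ ⊤ := hc0.measure_lt_top.ne
  have hv01 : 1 ≤ v0 := by
    have := measure_mono (μ := (volume : Measure (ℝ × ℝ))) hU
    rw [vol_U0] at this
    have h2 : ENNReal.ofReal 1 ≤ volume K0 := by rw [ENNReal.ofReal_one]; exact this
    rw [ENNReal.ofReal_le_iff_le_toReal hfin0] at h2
    exact h2
  have hv0pos : 0 < v0 := by linarith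
  have hA0pos : 0 ≤ A0 := by
    have : cr a c d = cr c d a := by simp only [cr]; ring
    rw [hA0, this]
    linarith [hq.1, hq.2.2.1]
  set c0 := (A0 / v0 + √2) / 2 with hc0'
  have hc1 : A0 / v0 < √2 := by rw [div_lt_iff₀ hv0pos]; exact hlt
  have hc2 : A0 < c0 * v0 := by
    have : A0 / v0 < c0 := by rw [hc0']; linarith
    rwa [div_lt_iff₀ hv0pos] at this
  have hc3 : c0 < √2 := by rw [hc0']; linarith
  have hc0nn : 0 ≤ c0 := by
    rw [hc0']
    have : 0 ≤ A0 / v0 := by positivity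
    positivity
  -- choose η
  have hcont : Filter.Tendsto (fun η : ℝ => (1 + 2 * η) ^ 4 * c0) (nhds 0) (nhds c0) := by
    have : Continuous (fun η : ℝ => (1 + 2 * η) ^ 4 * c0) := by fun_prop
    have h2 := this.tendsto 0
    simpa using h2
  have hev := hcont.eventually (gt_mem_nhds hc3)
  rw [Metric.eventually_nhds_iff] at hev
  obtain ⟨ε, hε, hball⟩ := hev
  have hη := hball (y := ε / 2) (by rw [Real.dist_eq, sub_zero, abs_of_pos (by linarith)]; linarith)
  set η := ε / 2 with hηdef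
  have hη0 : 0 < η := by positivity
  refine ⟨η, hη0, (1 + 2 * η) ^ 4 * c0, hη, ?_⟩
  intro K hKc hK hUK h1 h2
  have hdetne : (1 + 2 * η) * (1 + 2 * η) - 0 * 0 ≠ 0 := by
    have : 0 < (1 + 2 * η) * (1 + 2 * η) := by positivity
    linarith
  have habs : |(1 + 2 * η) * (1 + 2 * η) - 0 * 0| = (1 + 2 * η) ^ 2 := by
    have : (1 + 2 * η) * (1 + 2 * η) - 0 * 0 = (1 + 2 * η) ^ 2 := by ring
    rw [this, abs_of_pos (by positivity)]
  have hKsub : K ⊆ aff (1 + 2 * η) 0 0 (1 + 2 * η) (-η) (-η) '' K0 := by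
    intro z hz
    obtain ⟨k, hk, hd⟩ := h1 z hz
    exact dilate hK0 hU hη0 hk hd
  have hK0sub : K0 ⊆ aff (1 + 2 * η) 0 0 (1 + 2 * η) (-η) (-η) '' K := by
    intro z hz
    obtain ⟨k, hk, hd⟩ := h2 z hz
    exact dilate hK hUK hη0 hk hd
  have hG0 : Good K0 (c0 * v0) := ⟨a, b, c, d, hq, hsub, hc2⟩
  have hG1 := hG0.aff (1 + 2 * η) 0 0 (1 + 2 * η) (-η) (-η) hdetne
  rw [habs] at hG1
  refine hG1.mono hKsub ?_
  have hvle : v0 ≤ (1 + 2 * η) ^ 2 * (volume K).toReal := by
    have := measure_mono (μ := (volume : Measure (ℝ × ℝ))) hK0sub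
    rw [volume_aff, habs] at this
    have h3 := ENNReal.toReal_mono (by
      exact ENNReal.mul_ne_top ENNReal.ofReal_ne_top hKc.measure_lt_top.ne) this
    rw [ENNReal.toReal_mul, ENNReal.toReal_ofReal (by positivity)] at h3
    exact h3
  calc (1 + 2 * η) ^ 2 * (c0 * v0) = ((1 + 2 * η) ^ 2 * c0) * v0 := by ring
    _ ≤ ((1 + 2 * η) ^ 2 * c0) * ((1 + 2 * η) ^ 2 * (volume K).toReal) :=
        mul_le_mul_of_nonneg_left hvle (by positivity)
    _ = (1 + 2 * η) ^ 4 * c0 * (volume K).toReal := by ring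

/-- the bounding box -/
def Box : Set (ℝ × ℝ) := Icc (-1) 2 ×ˢ Icc (-1) 2

instance : CompactSpace Box := isCompact_iff_compactSpace.mp (isCompact_Icc.prod isCompact_Icc)

/-- The planar set carried by a compact subset of the box. -/
def body (L : NonemptyCompacts Box) : Set (ℝ × ℝ) := Subtype.val '' (L : Set Box)

def Fam : Set (NonemptyCompacts Box) := {L | Convex ℝ (body L) ∧ U0 ⊆ body L}

lemma body_compact (L : NonemptyCompacts Box) : IsCompact (body L) :=
  L.isCompact.image continuous_subtype_val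

lemma near {L L' : NonemptyCompacts Box} {ε : ℝ} (h : dist L L' < ε) :
    ∀ z ∈ body L, ∃ k ∈ body L', dist z k < ε := by
  rintro z ⟨x, hx, rfl⟩
  rw [Metric.NonemptyCompacts.dist_eq] at h
  have hfin : Metric.hausdorffEDist (L : Set Box) (L' : Set Box) ≠ ⊤ :=
    Metric.hausdorffEDist_ne_top_of_nonempty_of_bounded L.nonempty L'.nonempty
      L.isCompact.isBounded L'.isCompact.isBounded
  obtain ⟨y, hy, hd⟩ := Metric.exists_dist_lt_of_hausdorffDist_lt hx h hfin
  exact ⟨y, ⟨y, hy, rfl⟩, hd⟩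

lemma Fam_closed : IsClosed Fam := by
  rw [← closure_subset_iff_isClosed]
  intro L hL
  rw [Metric.mem_closure_iff] at hL
  have hcl : IsClosed (body L) := (body_compact L).isClosed
  constructor
  · intro x hx y hy α β hα hβ hab
    rw [← hcl.closure_eq, Metric.mem_closure_iff]
    intro ε hε
    obtain ⟨L', hL', hd⟩ := hL (ε / 2) (by positivity)
    obtain ⟨x', hx', dx⟩ := near hd x hx
    obtain ⟨y', hy', dy⟩ := near hd y hy
    have hm := hL'.1 hx' hy' hα hβ hab
    obtain ⟨w, hw, dw⟩ := near (by rw [dist_comm]; exact hd) _ hm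
    refine ⟨w, hw, ?_⟩
    calc dist (α • x + β • y) w ≤ dist (α • x + β • y) (α • x' + β • y')
          + dist (α • x' + β • y') w := dist_triangle _ _ _
      _ < ε / 2 + ε / 2 := by
          have h1 : dist (α • x + β • y) (α • x' + β • y') ≤ α * dist x x' + β * dist y y' := by
            calc dist (α • x + β • y) (α • x' + β • y')
                ≤ dist (α • x) (α • x') + dist (β • y) (β • y') := dist_add_add_le _ _ _ _
              _ = α * dist x x' + β * dist y y' := by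
                rw [dist_smul₀, dist_smul₀, Real.norm_of_nonneg hα, Real.norm_of_nonneg hβ]
          have h2 : α * dist x x' + β * dist y y' ≤ ε / 2 := by
            have e : ε / 2 = α * (ε / 2) + β * (ε / 2) := by rw [← add_mul, hab, one_mul]
            rw [e]
            exact add_le_add (mul_le_mul_of_nonneg_left dx.le hα)
              (mul_le_mul_of_nonneg_left dy.le hβ)
          linarith
      _ = ε := by ring
  · intro u hu
    rw [← hcl.closure_eq, Metric.mem_closure_iff]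
    intro ε hε
    obtain ⟨L', hL', hd⟩ := hL ε hε
    exact near (by rw [dist_comm]; exact hd) u (hL'.2 hu)

theorem uniform : ∃ c < √2, ∀ L ∈ Fam, Good (body L) (c * (volume (body L)).toReal) := by
  have hcomp : IsCompact Fam := Fam_closed.isCompact
  refine hcomp.induction_on (p := fun S => ∃ c < √2, ∀ L ∈ S, L ∈ Fam →
    Good (body L) (c * (volume (body L)).toReal)) ?_ ?_ ?_ ?_ |>.imp (fun c hc =>
      ⟨hc.1, fun L hL => hc.2 L hL hL⟩)
  · exact ⟨0, by positivity, fun L hL => absurd hL (by simp)⟩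
  · rintro S T hST ⟨c, hc, h⟩
    exact ⟨c, hc, fun L hL => h L (hST hL)⟩
  · rintro S T ⟨c1, hc1, h1⟩ ⟨c2, hc2, h2⟩
    refine ⟨max c1 c2, max_lt hc1 hc2, ?_⟩
    rintro L (hL | hL) hF
    · exact (h1 L hL hF).mono le_rfl
        (mul_le_mul_of_nonneg_right (le_max_left _ _) ENNReal.toReal_nonneg)
    · exact (h2 L hL hF).mono le_rfl
        (mul_le_mul_of_nonneg_right (le_max_right _ _) ENNReal.toReal_nonneg)
  · intro L0 hL0
    obtain ⟨η, hη, c, hc, h⟩ := local_uniform (body_compact L0) hL0.1 hL0.2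
    refine ⟨Metric.ball L0 η, mem_nhdsWithin_of_mem_nhds (Metric.ball_mem_nhds L0 hη), c, hc, ?_⟩
    intro L hL hF
    rw [Metric.mem_ball] at hL
    exact h (body L) (body_compact L) hF.1 hF.2 (near hL) (near (by rw [dist_comm]; exact hL))

/-- Question 1, negated form: there is a constant `c < √2` such that every plane convex set of
unit area is contained in a (strictly) convex quadrilateral of area at most `c`. -/
theorem question_one : ∃ c : ℝ, c < √2 ∧ ∀ K : Set (ℝ × ℝ), Convex ℝ K → volume K = 1 →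
    ∃ p q r s : ℝ × ℝ, IsConvexQuad p q r s ∧ K ⊆ convexHull ℝ {p, q, r, s} ∧
      volume (convexHull ℝ {p, q, r, s}) ≤ ENNReal.ofReal c := by
  obtain ⟨c, hc, hunif⟩ := uniform
  refine ⟨c, hc, ?_⟩
  intro K hK hvol
  obtain ⟨hcl, hint, hvcl⟩ := closure_facts hK hvol
  have hKcl : Convex ℝ (closure K) := hK.closure
  obtain ⟨α, β, γ, δ, s, t, hd, h00, h10, h01, h11, hmax⟩ := normalise hcl hKcl hint
  set K' := aff α β γ δ s t '' closure K with hK'
  have hK'c : IsCompact K' := hcl.image (aff_continuous α β γ δ s t)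
  have hK'conv : Convex ℝ K' := convex_aff hKcl _ _ _ _ _ _
  have hbox := (norm_good hK'c hK'conv h00 h10 h01 h11 hmax).2
  have hU : U0 ⊆ K' := square_subset hK'conv h00 h10 h01 h11
  have hsubBox : K' ⊆ Box := fun z hz =>
    ⟨⟨(hbox z hz).1, (hbox z hz).2.1⟩, ⟨(hbox z hz).2.2.1, (hbox z hz).2.2.2⟩⟩
  have hBoxClosed : IsClosed Box := isClosed_Icc.prod isClosed_Icc
  let L : NonemptyCompacts Box :=
    ⟨⟨Subtype.val ⁻¹' K', hBoxClosed.isClosedEmbedding_subtypeVal.isCompact_preimage hK'c⟩,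
      ⟨⟨(0, 0), hsubBox h00⟩, h00⟩⟩
  have hbody : body L = K' := by
    have : body L = Subtype.val '' (Subtype.val ⁻¹' K' : Set Box) := rfl
    rw [this, image_preimage_eq_inter_range, Subtype.range_coe]
    exact inter_eq_left.mpr hsubBox
  have hL : L ∈ Fam := by
    constructor
    · rw [hbody]; exact hK'conv
    · rw [hbody]; exact hU
  have hG := hunif L hL
  rw [hbody, hK', volume_aff, hvcl, mul_one, ENNReal.toReal_ofReal (abs_nonneg _)] at hG
  have hG2 : Good (closure K) c := by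
    apply good_of_aff hd
    rw [mul_comm]; exact hG
  obtain ⟨p, q, r, s', hq, hsub, hlt⟩ := hG2
  refine ⟨p, q, r, s', hq, subset_closure.trans hsub, ?_⟩
  exact (vol_quad_le hq).trans (ENNReal.ofReal_le_ofReal hlt.le)


/-- **Main theorem.** (Question 1, negative answer) There is a constant `c < √2` such that every
plane convex set of unit area is contained in a (strictly) convex quadrilateral of area at most
`c`; and (Question 2, negative answer) every plane convex set of unit area is contained in a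
(strictly) convex quadrilateral of area strictly less than `√2`. -/
theorem result :
    (∃ c : ℝ, c < √2 ∧ ∀ K : Set (ℝ × ℝ), Convex ℝ K → volume K = 1 →
      ∃ p q r s : ℝ × ℝ, IsConvexQuad p q r s ∧ K ⊆ convexHull ℝ {p, q, r, s} ∧
        volume (convexHull ℝ {p, q, r, s}) ≤ ENNReal.ofReal c) ∧
    (∀ K : Set (ℝ × ℝ), Convex ℝ K → volume K = 1 →
      ∃ p q r s : ℝ × ℝ, IsConvexQuad p q r s ∧ K ⊆ convexHull ℝ {p, q, r, s} ∧
        volume (convexHull ℝ {p, q, r, s}) < ENNReal.ofReal √2) := by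
  refine ⟨question_one, ?_⟩
  obtain ⟨c, hc, h⟩ := question_one
  intro K hK hvol
  obtain ⟨p, q, r, s, hq, hsub, hle⟩ := h K hK hvol
  refine ⟨p, q, r, s, hq, hsub, lt_of_le_of_lt hle ?_⟩
  exact (ENNReal.ofReal_lt_ofReal_iff (by positivity)).mpr hc


end Pool.Agent.Results.MP_b29168_gt.CircumscribedQuadrilaterals
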